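import Pool.Agent.Q265.BM.B

/-! # Uniform bounds in the extensions of a number field -/

set_option autoImplicit false

open NumberField Height Function Polynomial

namespace Q265.BD

open Q241.AK Q265.NF Q265.BM

section base

variable {K : Type} [Field K] [NumberField K]

/-- common denominators -/
lemma clearI (s : Finset K) : ∃ β : K, β ≠ 0 ∧ IsIntegral ℤ β ∧ ∀ c ∈ s, IsIntegral ℤ (β * c) := by
  obtain ⟨b, hb⟩ := IsLocalization.exist_integer_multiples_of_finset (nonZeroDivisors (𝓞 K)) s
  refine ⟨algebraMap (𝓞 K) K b, ?_, RingOfIntegers.isIntegral_coe _, fun c hc => ?_⟩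
  · have := nonZeroDivisors.ne_zero b.2
    intro h
    apply this
    exact (FaithfulSMul.algebraMap_eq_zero_iff (𝓞 K) K).1 h
  · obtain ⟨r, hr⟩ := hb c hc
    have : algebraMap (𝓞 K) K b * c = algebraMap (𝓞 K) K r := by
      rw [hr, Algebra.smul_def]
    rw [this]
    exact RingOfIntegers.isIntegral_coe _

omit [NumberField K] in
lemma int_le {L : Type} [Field L] [NumberField L] [Algebra K L] (w : FinitePlace L) {x : K}
    (h : IsIntegral ℤ x) : w (algebraMap K L x) ≤ 1 := by
  have h1 : IsIntegral ℤ (algebraMap K L x) := h.map (algebraMap K L).toIntAlgHom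
  have := int_le_one w (⟨algebraMap K L x, h1⟩ : 𝓞 L)
  exact this

/-- values at the infinite places of extensions -/
lemma inf_evalA (P : K[X]) : ∃ C : ℝ, 1 ≤ C ∧ ∀ (L : Type) [Field L] [NumberField L] [Algebra K L],
    ∀ n, (P.map (algebraMap K L)).natDegree ≤ n → ∀ (w : InfinitePlace L) (t : L),
      w ((P.map (algebraMap K L)).eval t) ≤ C * (max (w t) 1) ^ n := by
  refine ⟨1 + ∑ w : InfinitePlace K, ∑ i ∈ Finset.range (P.natDegree + 1), w (P.coeff i), ?_,
    fun L _ _ _ n hn w t => ?_⟩
  · have : 0 ≤ ∑ w : InfinitePlace K, ∑ i ∈ Finset.range (P.natDegree + 1), w (P.coeff i) :=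
      Finset.sum_nonneg fun w _ => Finset.sum_nonneg fun i _ => by positivity
    linarith
  · have hM : 1 ≤ max (w t) 1 := le_max_right _ _
    have hdeg : (P.map (algebraMap K L)).natDegree = P.natDegree := natDegree_map _
    rw [hdeg] at hn
    rw [eval_eq_sum_range, hdeg]
    have h1 : w (∑ i ∈ Finset.range (P.natDegree + 1), (P.map (algebraMap K L)).coeff i * t ^ i) ≤
        ∑ i ∈ Finset.range (P.natDegree + 1), w ((P.map (algebraMap K L)).coeff i * t ^ i) :=
      IsAbsoluteValue.abv_sum w.val _ _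
    refine h1.trans ?_
    have h2 : ∀ i ∈ Finset.range (P.natDegree + 1), w ((P.map (algebraMap K L)).coeff i * t ^ i) ≤
        (w.comap (algebraMap K L)) (P.coeff i) * (max (w t) 1) ^ n := by
      intro i hi
      rw [Finset.mem_range] at hi
      rw [map_mul, map_pow, coeff_map, InfinitePlace.comap_apply]
      have h1 : w t ^ i ≤ (max (w t) 1) ^ n :=
        (pow_le_pow_left₀ (by positivity) (le_max_left _ _) i).trans
          (pow_le_pow_right₀ hM (by omega))
      exact mul_le_mul_of_nonneg_left h1 (by positivity)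
    refine (Finset.sum_le_sum h2).trans ?_
    rw [← Finset.sum_mul]
    have h3 : ∑ i ∈ Finset.range (P.natDegree + 1), (w.comap (algebraMap K L)) (P.coeff i) ≤
        ∑ w : InfinitePlace K, ∑ i ∈ Finset.range (P.natDegree + 1), w (P.coeff i) :=
      Finset.single_le_sum (f := fun w : InfinitePlace K =>
        ∑ i ∈ Finset.range (P.natDegree + 1), w (P.coeff i))
        (fun w _ => Finset.sum_nonneg fun i _ => by positivity) (Finset.mem_univ _)
    gcongr
    linarith

end base

section field

variable {L : Type} [Field L] [NumberField L]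

/-- the primes at which the value of a polynomial is small -/
theorem defect_core {g : L[X]} {n : ℕ} (hn : g.natDegree ≤ n)
    (hg : ∀ (v : FinitePlace L) (i : ℕ), v (g.coeff i) ≤ 1) {E : ℝ} (hE : 1 ≤ E)
    (hEw : ∀ n, g.natDegree ≤ n → ∀ (w : InfinitePlace L) (t : L),
      w (g.eval t) ≤ E * (max (w t) 1) ^ n) {t : L} (ht : g.eval t ≠ 0) :
      {v : FinitePlace L | v (g.eval t) < (max (v t) 1) ^ n}.Finite ∧
      Real.log (PP {v : FinitePlace L | v (g.eval t) < (max (v t) 1) ^ n}) ≤
        n * logHeight₁ t + Module.finrank ℚ L * Real.log E := by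
  obtain ⟨y, hy⟩ : ∃ y : L, y = g.eval t := ⟨_, rfl⟩
  rw [← hy] at ht ⊢
  have h1 : ∀ v : FinitePlace L, v y ≤ (max (v t) 1) ^ n := by
    intro v
    have := fin_eval v g hn zero_le_one (hg v) t
    rw [one_mul] at this
    rw [hy]
    exact this
  have h2 : ∀ w : InfinitePlace L, w y ≤ E * (max (w t) 1) ^ n := by
    intro w
    rw [hy]
    exact hEw n hn w t
  have hfy : HasFiniteMulSupport (fun v : FinitePlace L => v y) := FinitePlace.hasFiniteMulSupport ht
  have hfx : HasFiniteMulSupport (fun v : FinitePlace L => (max (v t) 1) ^ n) := by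
    refine (suppM t).subset fun v hv => ?_
    rw [mem_mulSupport] at hv ⊢
    intro h
    apply hv
    rw [h, one_pow]
  have hfin : {v : FinitePlace L | v y < (max (v t) 1) ^ n}.Finite := by
    refine (hfx.union hfy).subset fun v hv => ?_
    by_contra h
    rw [Set.mem_union, not_or, mem_mulSupport, mem_mulSupport, not_not, not_not] at h
    rw [Set.mem_ofPred_eq, h.1, h.2] at hv
    exact lt_irrefl _ hv
  refine ⟨hfin, ?_⟩
  have hpt : ∀ v : FinitePlace L, pr {v : FinitePlace L | v y < (max (v t) 1) ^ n} v ≤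
      (max (v t) 1) ^ n / v y := by
    intro v
    have hv0 : 0 < v y := FinitePlace.pos_iff.2 ht
    unfold pr
    split_ifs with h
    · rw [le_div_iff₀ hv0]
      exact gapM v ht n h
    · rw [le_div_iff₀ hv0, one_mul]
      exact h1 v
  have hM0 : ∀ v : FinitePlace L, 0 ≤ max (v t) 1 := fun v => by positivity
  have hle : PP {v : FinitePlace L | v y < (max (v t) 1) ^ n} ≤
      ∏ᶠ v : FinitePlace L, (max (v t) 1) ^ n / v y :=
    finprod_le_finprod (pr_fin hfin) (fun v => zero_le_one.trans (one_le_pr _ v))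
    (hfx.div hfy) hpt
  have hpf : ∏ᶠ v : FinitePlace L, v y = (∏ w : InfinitePlace L, w y ^ w.mult)⁻¹ :=
    eq_inv_of_mul_eq_one_right (NumberField.prod_abs_eq_one ht)
  have hmul : PP {v : FinitePlace L | v y < (max (v t) 1) ^ n} ≤
      E ^ Module.finrank ℚ L * mulHeight₁ t ^ n := by
    refine hle.trans ?_
    have hmf : 0 ≤ (∏ᶠ v : FinitePlace L, max (v t) 1) ^ n :=
      pow_nonneg (finprod_nonneg fun v => hM0 v) n
    have e1 : ∏ᶠ v : FinitePlace L, (max (v t) 1) ^ n = (∏ᶠ v : FinitePlace L, max (v t) 1) ^ n :=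
      (finprod_pow (suppM t) n).symm
    rw [finprod_div_distrib hfx hfy, hpf, div_inv_eq_mul, NumberField.mulHeight₁_eq, e1,
      mul_comm ((∏ᶠ v : FinitePlace L, max (v t) 1) ^ n), mul_pow, ← mul_assoc]
    refine mul_le_mul_of_nonneg_right ?_ hmf
    rw [← InfinitePlace.sum_mult_eq, ← Finset.prod_pow_eq_pow_sum, ← Finset.prod_pow,
      ← Finset.prod_mul_distrib]
    refine Finset.prod_le_prod (fun w _ => by positivity) fun w _ => ?_
    rw [← pow_mul, mul_comm w.mult n, pow_mul, ← mul_pow]
    exact pow_le_pow_left₀ (by positivity) (h2 w) _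
  have h3 := Real.log_le_log (lt_of_lt_of_le one_pos (one_le_PP _)) hmul
  have hH := mulHeight₁_pos t
  have hE0 : 0 < E := by linarith
  rw [Real.log_mul (by positivity) (by positivity), Real.log_pow, Real.log_pow,
    ← logHeight₁_eq_log_mulHeight₁] at h3
  linarith

/-- the lower bound for the height of a value -/
theorem low_core {p q a b a' b' : L[X]} {d : ℕ} (hd : 1 ≤ d) {β : L} (hβ0 : β ≠ 0)
    (hab : a * p + b * q = C β) (hab' : a' * p + b' * q = C β * X ^ (2 * d - 1))
    (ha' : a'.natDegree ≤ d - 1) (hb' : b'.natDegree ≤ d - 1)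
    (ca : ∀ (v : FinitePlace L) (i : ℕ), v (a.coeff i) ≤ 1)
    (cb : ∀ (v : FinitePlace L) (i : ℕ), v (b.coeff i) ≤ 1)
    (ca' : ∀ (v : FinitePlace L) (i : ℕ), v (a'.coeff i) ≤ 1)
    (cb' : ∀ (v : FinitePlace L) (i : ℕ), v (b'.coeff i) ≤ 1) {C1 C2 C3 C4 : ℝ}
    (hC1 : 1 ≤ C1) (hC2 : 1 ≤ C2) (hC3 : 1 ≤ C3) (hC4 : 1 ≤ C4)
    (i1 : ∀ n, a.natDegree ≤ n → ∀ (w : InfinitePlace L) (t : L),
      w (a.eval t) ≤ C1 * (max (w t) 1) ^ n)
    (i2 : ∀ n, b.natDegree ≤ n → ∀ (w : InfinitePlace L) (t : L),
      w (b.eval t) ≤ C2 * (max (w t) 1) ^ n)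
    (i3 : ∀ n, a'.natDegree ≤ n → ∀ (w : InfinitePlace L) (t : L),
      w (a'.eval t) ≤ C3 * (max (w t) 1) ^ n)
    (i4 : ∀ n, b'.natDegree ≤ n → ∀ (w : InfinitePlace L) (t : L),
      w (b'.eval t) ≤ C4 * (max (w t) 1) ^ n) (t : L) :
    d * logHeight₁ t ≤ logHeight ![p.eval t, q.eval t] +
      Module.finrank ℚ L * Real.log (C1 + C2 + C3 + C4) := by
  obtain ⟨E, hE⟩ : ∃ E : ℝ, E = C1 + C2 + C3 + C4 := ⟨_, rfl⟩
  rw [← hE]
  have hE1 : 1 ≤ E := by rw [hE]; linarith
  have id1 : a.eval t * p.eval t + b.eval t * q.eval t = β := by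
    rw [← eval_mul, ← eval_mul, ← eval_add, hab, eval_C]
  have id2 : a'.eval t * p.eval t + b'.eval t * q.eval t = β * t ^ (2 * d - 1) := by
    rw [← eval_mul, ← eval_mul, ← eval_add, hab', eval_mul, eval_C, eval_pow, eval_X]
  have hne : ![p.eval t, q.eval t] ≠ 0 := by
    intro h
    have h0 : p.eval t = 0 := congrFun h 0
    have h1 : q.eval t = 0 := congrFun h 1
    rw [h0, h1, mul_zero, mul_zero, add_zero] at id1
    exact hβ0 id1.symm
  have hne' : β • ![t ^ d, 1] ≠ 0 := by
    intro h
    have h1 : β * 1 = 0 := congrFun h 1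
    rw [mul_one] at h1
    exact hβ0 h1
  have hht : logHeight (β • ![t ^ d, (1 : L)]) = d * logHeight₁ t := by
    rw [logHeight_smul_eq_logHeight _ hβ0, ← logHeight₁_eq_logHeight, logHeight₁_pow]
  rw [← hht]
  refine loc_le2 hne' hne hE1 (fun v => ?_) (fun w => ?_)
  · show max (v (β * t ^ d)) (v (β * 1)) ≤ max (v (p.eval t)) (v (q.eval t))
    obtain ⟨B, hB⟩ : ∃ B : ℝ, B = max (v (p.eval t)) (v (q.eval t)) := ⟨_, rfl⟩
    have hB0 : 0 ≤ B := by rw [hB]; positivity
    have hBp : v (p.eval t) ≤ B := by rw [hB]; exact le_max_left _ _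
    have hBq : v (q.eval t) ≤ B := by rw [hB]; exact le_max_right _ _
    rw [← hB]
    rcases le_or_gt (v t) 1 with h | h
    · have hM : max (v t) 1 = 1 := max_eq_right h
      have k1 := fin_eval v a (le_refl _) zero_le_one (ca v) t
      have k2 := fin_eval v b (le_refl _) zero_le_one (cb v) t
      rw [hM, one_pow, mul_one] at k1 k2
      have k3 : v β ≤ B := by
        rw [← id1]
        refine (FinitePlace.add_le v _ _).trans (max_le ?_ ?_)
        · rw [map_mul]
          calc _ ≤ 1 * B := mul_le_mul k1 hBp (by positivity) zero_le_one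
            _ = B := one_mul B
        · rw [map_mul]
          calc _ ≤ 1 * B := mul_le_mul k2 hBq (by positivity) zero_le_one
            _ = B := one_mul B
      refine max_le ?_ (by rwa [mul_one])
      rw [map_mul, map_pow]
      exact (mul_le_of_le_one_right (by positivity) (pow_le_one₀ (by positivity) h)).trans k3
    · have hM : max (v t) 1 = v t := max_eq_left h.le
      have ht0 : 0 < v t := by linarith
      have k1 := fin_eval v a' ha' zero_le_one (ca' v) t
      have k2 := fin_eval v b' hb' zero_le_one (cb' v) t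
      rw [hM, one_mul] at k1 k2
      have k3 : v (β * t ^ (2 * d - 1)) ≤ v t ^ (d - 1) * B := by
        rw [← id2]
        refine (FinitePlace.add_le v _ _).trans (max_le ?_ ?_)
        · rw [map_mul]
          exact mul_le_mul k1 hBp (by positivity) (by positivity)
        · rw [map_mul]
          exact mul_le_mul k2 hBq (by positivity) (by positivity)
      have k4 : v (β * t ^ d) ≤ B := by
        have e : t ^ (2 * d - 1) = t ^ (d - 1) * t ^ d := by
          rw [← pow_add]
          congr 1
          omega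
        rw [e, show β * (t ^ (d - 1) * t ^ d) = t ^ (d - 1) * (β * t ^ d) by ring, map_mul,
          map_pow] at k3
        exact le_of_mul_le_mul_left k3 (pow_pos ht0 _)
      refine max_le k4 ?_
      rw [mul_one]
      refine le_trans ?_ k4
      rw [map_mul, map_pow]
      exact le_mul_of_one_le_right (by positivity) (one_le_pow₀ h.le)
  · show max (w (β * t ^ d)) (w (β * 1)) ≤ E * max (w (p.eval t)) (w (q.eval t))
    obtain ⟨B, hB⟩ : ∃ B : ℝ, B = max (w (p.eval t)) (w (q.eval t)) := ⟨_, rfl⟩
    have hB0 : 0 ≤ B := by rw [hB]; positivity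
    have hBp : w (p.eval t) ≤ B := by rw [hB]; exact le_max_left _ _
    have hBq : w (q.eval t) ≤ B := by rw [hB]; exact le_max_right _ _
    rw [← hB]
    rcases le_or_gt (w t) 1 with h | h
    · have hM : max (w t) 1 = 1 := max_eq_right h
      have k1 := i1 _ (le_refl _) w t
      have k2 := i2 _ (le_refl _) w t
      rw [hM, one_pow, mul_one] at k1 k2
      have k3 : w β ≤ E * B := by
        rw [← id1]
        refine (iadd' w _ _).trans ?_
        rw [map_mul, map_mul]
        calc _ ≤ C1 * B + C2 * B := by gcongr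
          _ ≤ E * B := by rw [hE]; nlinarith
      refine max_le ?_ (by rwa [mul_one])
      rw [map_mul, map_pow]
      exact (mul_le_of_le_one_right (by positivity) (pow_le_one₀ (by positivity) h)).trans k3
    · have hM : max (w t) 1 = w t := max_eq_left h.le
      have ht0 : 0 < w t := by linarith
      have k1 := i3 _ ha' w t
      have k2 := i4 _ hb' w t
      rw [hM] at k1 k2
      have k3 : w (β * t ^ (2 * d - 1)) ≤ w t ^ (d - 1) * (E * B) := by
        rw [← id2]
        refine (iadd' w _ _).trans ?_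
        rw [map_mul, map_mul]
        calc _ ≤ (C3 * w t ^ (d - 1)) * B + (C4 * w t ^ (d - 1)) * B := by gcongr
          _ = w t ^ (d - 1) * ((C3 + C4) * B) := by ring
          _ ≤ w t ^ (d - 1) * (E * B) := by
            gcongr
            rw [hE]
            linarith
      have k4 : w (β * t ^ d) ≤ E * B := by
        have e : t ^ (2 * d - 1) = t ^ (d - 1) * t ^ d := by
          rw [← pow_add]
          congr 1
          omega
        rw [e, show β * (t ^ (d - 1) * t ^ d) = t ^ (d - 1) * (β * t ^ d) by ring, map_mul,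
          map_pow] at k3
        exact le_of_mul_le_mul_left k3 (pow_pos ht0 _)
      refine max_le k4 ?_
      rw [mul_one]
      refine le_trans ?_ k4
      rw [map_mul, map_pow]
      exact le_mul_of_one_le_right (by positivity) (one_le_pow₀ h.le)

end field

section uniform

variable {K : Type} [Field K] [NumberField K]

/-- the primes of extensions at which the value of a polynomial is small -/
theorem defectA (g : K[X]) {n : ℕ} (hn : g.natDegree ≤ n) (hg : ∀ i, IsIntegral ℤ (g.coeff i)) :
    ∃ C : ℝ, 0 ≤ C ∧ ∀ (L : Type) [Field L] [NumberField L] [Algebra K L] (t : L),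
      (g.map (algebraMap K L)).eval t ≠ 0 →
      {v : FinitePlace L | v ((g.map (algebraMap K L)).eval t) < (max (v t) 1) ^ n}.Finite ∧
      Real.log (PP {v : FinitePlace L | v ((g.map (algebraMap K L)).eval t) <
        (max (v t) 1) ^ n}) ≤ n * logHeight₁ t + Module.finrank ℚ L * C := by
  obtain ⟨E, hE, hEw⟩ := inf_evalA g
  refine ⟨Real.log E, Real.log_nonneg hE, fun L _ _ _ t ht => ?_⟩
  refine defect_core ?_ ?_ hE (hEw L) ht
  · exact natDegree_map_le.trans hn
  · intro v i
    rw [coeff_map]
    exact int_le v (hg i)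

/-- the lower bound for the height of a value, uniform in extensions -/
theorem lowA {p q : K[X]} {d : ℕ} (hd : 1 ≤ d) (hcop : IsCoprime p q) (hp : p.natDegree ≤ d)
    (hq : q.natDegree ≤ d) (hpq : p.natDegree = d ∨ q.natDegree = d) :
    ∃ C : ℝ, 0 ≤ C ∧ ∀ (L : Type) [Field L] [NumberField L] [Algebra K L] (t : L),
      d * logHeight₁ t ≤ logHeight ![(p.map (algebraMap K L)).eval t,
        (q.map (algebraMap K L)).eval t] + Module.finrank ℚ L * C := by
  classical
  obtain ⟨a, b, hab⟩ := id hcop
  obtain ⟨a', b', ha', hb', hab'⟩ := cert2 hd hcop hp hq hpq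
  obtain ⟨β, hβ0, hβ1, hβ⟩ := clearI (K := K)
    (a.support.image a.coeff ∪ b.support.image b.coeff ∪
      (a'.support.image a'.coeff ∪ b'.support.image b'.coeff))
  have hco : ∀ P : K[X], P.support.image P.coeff ⊆ (a.support.image a.coeff ∪
      b.support.image b.coeff ∪ (a'.support.image a'.coeff ∪ b'.support.image b'.coeff)) →
      ∀ (i : ℕ), IsIntegral ℤ ((C β * P).coeff i) := by
    intro P hP i
    rw [coeff_C_mul]
    by_cases h : P.coeff i = 0
    · rw [h, mul_zero]
      exact isIntegral_zero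
    · exact hβ _ (hP (Finset.mem_image_of_mem _ (mem_support_iff.2 h)))
  have ca := hco a (fun x hx => by simp only [Finset.mem_union]; tauto)
  have cb := hco b (fun x hx => by simp only [Finset.mem_union]; tauto)
  have ca' := hco a' (fun x hx => by simp only [Finset.mem_union]; tauto)
  have cb' := hco b' (fun x hx => by simp only [Finset.mem_union]; tauto)
  obtain ⟨C1, hC1, i1⟩ := inf_evalA (C β * a)
  obtain ⟨C2, hC2, i2⟩ := inf_evalA (C β * b)
  obtain ⟨C3, hC3, i3⟩ := inf_evalA (C β * a')
  obtain ⟨C4, hC4, i4⟩ := inf_evalA (C β * b')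
  refine ⟨Real.log (C1 + C2 + C3 + C4), Real.log_nonneg (by linarith), fun L _ _ _ t => ?_⟩
  have e1 : (C β * a) * p + (C β * b) * q = C β := by
    have : (C β * a) * p + (C β * b) * q = C β * (a * p + b * q) := by ring
    rw [this, hab, mul_one]
  have e2 : (C β * a') * p + (C β * b') * q = C β * X ^ (2 * d - 1) := by
    have : (C β * a') * p + (C β * b') * q = C β * (a' * p + b' * q) := by ring
    rw [this, hab']
  have f1 : (C β * a).map (algebraMap K L) * p.map (algebraMap K L) +
      (C β * b).map (algebraMap K L) * q.map (algebraMap K L) = C (algebraMap K L β) := by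
    rw [← Polynomial.map_mul, ← Polynomial.map_mul, ← Polynomial.map_add, e1, map_C]
  have f2 : (C β * a').map (algebraMap K L) * p.map (algebraMap K L) +
      (C β * b').map (algebraMap K L) * q.map (algebraMap K L) =
        C (algebraMap K L β) * X ^ (2 * d - 1) := by
    rw [← Polynomial.map_mul, ← Polynomial.map_mul, ← Polynomial.map_add, e2, Polynomial.map_mul,
      map_C, Polynomial.map_pow, map_X]
  have hβL : algebraMap K L β ≠ 0 := by
    rw [Ne, FaithfulSMul.algebraMap_eq_zero_iff]
    exact hβ0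
  refine low_core hd hβL f1 f2 ?_ ?_ ?_ ?_ ?_ ?_ hC1 hC2 hC3 hC4 (i1 L) (i2 L) (i3 L) (i4 L) t
  · exact (natDegree_map_le.trans (natDegree_C_mul_le β a')).trans ha'
  · exact (natDegree_map_le.trans (natDegree_C_mul_le β b')).trans hb'
  · intro v i
    rw [coeff_map]
    exact int_le v (ca i)
  · intro v i
    rw [coeff_map]
    exact int_le v (cb i)
  · intro v i
    rw [coeff_map]
    exact int_le v (ca' i)
  · intro v i
    rw [coeff_map]
    exact int_le v (cb' i)

end uniform

end Q265.BD
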