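import Pool.Agent.Q265.BD.A
import Pool.Agent.Q265.BM.D
import Pool.Agent.TH905.VF.Core

/-! # Maps unramified outside `D` at the points of an extension -/

set_option autoImplicit false

open NumberField Height Function Polynomial

namespace Q265.BD

open Q241.AK Q265.NF Q265.BM

section field

variable {L : Type} [Field L] [NumberField L]

/-- the primes outside `S` at which `t` meets one of the points `a i` or infinity -/
def UsA (S : Set (FinitePlace L)) {m : ℕ} (a : Fin m → L) (t : L) : Set (FinitePlace L) :=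
  {v | v ∉ S ∧ ((∃ i, Meets v (a i) t) ∨ 1 < v t)}

lemma UsA_fin (S : Set (FinitePlace L)) {m : ℕ} {a : Fin m → L} {t : L} (h : ∀ i, t ≠ a i) :
    (UsA S a t).Finite := by
  refine ((Set.finite_iUnion fun i => Ms_fin ∅ (h i)).union (Mi_fin ∅ t)).subset fun v hv => ?_
  rcases hv.2 with ⟨i, hi⟩ | h1
  · left
    rw [Set.mem_iUnion]
    exact ⟨i, Finset.notMem_empty v, hi⟩
  · exact Or.inr ⟨Finset.notMem_empty v, h1⟩

end field

variable {K : Type} [Field K] [NumberField K]

lemma ext1 {L : Type} [Field L] [NumberField L] [Algebra K L] (x : K) :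
    logHeight₁ (algebraMap K L x) = Module.finrank K L * logHeight₁ x := by
  have h := Pool.Agent.Helper259.HtExt.logHeight_ext (L := L) ![x, 1]
  have h2 : (fun i => algebraMap K L (![x, 1] i)) = ![algebraMap K L x, 1] := by
    funext i
    fin_cases i <;> simp
  rw [h2] at h
  rw [logHeight₁_eq_logHeight, h, ← logHeight₁_eq_logHeight]

lemma hconst (s : Finset K) : ∃ C : ℝ, 0 ≤ C ∧ ∀ (L : Type) [Field L] [NumberField L] [Algebra K L],
    ∀ x ∈ s, logHeight₁ (algebraMap K L x) ≤ Module.finrank ℚ L * C := by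
  refine ⟨∑ x ∈ s, logHeight₁ x, Finset.sum_nonneg fun x _ => zero_le_logHeight₁ x,
    fun L _ _ _ x hx => ?_⟩
  rw [ext1]
  have h1 : logHeight₁ x ≤ ∑ x ∈ s, logHeight₁ x :=
    Finset.single_le_sum (f := fun x => logHeight₁ x) (fun x _ => zero_le_logHeight₁ x) hx
  have h2 : (Module.finrank K L : ℝ) ≤ Module.finrank ℚ L := by
    rw [← Module.finrank_mul_finrank ℚ K L]
    push_cast
    have h3 : (1 : ℝ) ≤ Module.finrank ℚ K := by exact_mod_cast Module.finrank_pos
    nlinarith [(Nat.cast_nonneg (Module.finrank K L) : (0 : ℝ) ≤ Module.finrank K L)]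
  have h3 := zero_le_logHeight₁ x
  exact mul_le_mul h2 h1 h3 (by positivity)

/-- **The main step** -/
theorem stepA {p q : K[X]} {d : ℕ} (hd : 1 ≤ d) (hcop : IsCoprime p q) (hp : p.natDegree ≤ d)
    (hq : q.natDegree ≤ d) (hpq : p.natDegree = d ∨ q.natDegree = d) {k : ℕ}
    (b : Fin k → K) {r : K[X]} (hr1 : r ∣ Pol p q b) {NN : ℕ} (hNN : Pol p q b ∣ r ^ NN)
    (hne : Pol p q b ≠ 0) (hrad : r.natDegree ≤ d * (k - 1) + 1) {m : ℕ} (a : Fin m → K)
    (hinj : Function.Injective a) (ha : ∀ i, (Pol p q b).eval (a i) = 0) :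
    ∃ (n : ℕ) (C : ℝ), m + n ≤ d * (k - 1) + 1 ∧ 0 ≤ C ∧
      ∀ (L : Type) [Field L] [NumberField L] [Algebra K L] (t : L),
        (∀ i, t ≠ algebraMap K L (a i)) →
        (((Pol p q b).map (algebraMap K L)).eval t = 0 → logHeight₁ t ≤ Module.finrank ℚ L * C) ∧
        (((Pol p q b).map (algebraMap K L)).eval t ≠ 0 →
          (q.map (algebraMap K L)).eval t ≠ 0 ∧
          ∀ y : L, y = (p.map (algebraMap K L)).eval t / (q.map (algebraMap K L)).eval t →
            (∀ j, y ≠ algebraMap K L (b j)) ∧
            d * logHeight₁ t ≤ logHeight₁ y + Module.finrank ℚ L * C ∧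
            ∀ S : Set (FinitePlace L), Real.log (PP (UsA S (fun j => algebraMap K L (b j)) y)) ≤
              Real.log (PP (UsA S (fun i => algebraMap K L (a i)) t)) + n * logHeight₁ t +
                Module.finrank ℚ L * C) := by
  classical
  obtain ⟨P0, hP0⟩ : ∃ P0 : K[X], P0 = Pol p q b := ⟨_, rfl⟩
  rw [← hP0] at hr1 hNN ha hne ⊢
  have hr0 : r ≠ 0 := by
    rintro rfl
    exact hne (zero_dvd_iff.1 hr1)
  have hlinr : ∀ i, X - C (a i) ∣ r := by
    intro i
    have h1 : X - C (a i) ∣ P0 := dvd_iff_isRoot.2 (ha i)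
    exact (prime_X_sub_C (a i)).dvd_of_dvd_pow (h1.trans hNN)
  obtain ⟨mm, hmm⟩ := hNN
  -- the product of the linear factors
  have hlin : ∏ i : Fin m, (X - C (a i)) ∣ r := by
    refine Finset.prod_dvd_of_coprime (fun i _ j _ hij => ?_) (fun i _ => ?_)
    · exact isCoprime_X_sub_C_of_isUnit_sub
        (sub_ne_zero.2 (fun h => hij (hinj h))).isUnit
    · exact hlinr i
  obtain ⟨g, hg⟩ := hlin
  have hg0 : g ≠ 0 := by
    rintro rfl
    rw [mul_zero] at hg
    exact hr0 hg
  have hlin0 : (∏ i : Fin m, (X - C (a i))) ≠ 0 := by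
    intro h
    rw [h, zero_mul] at hg
    exact hr0 hg
  obtain ⟨n, hn⟩ : ∃ n, n = g.natDegree := ⟨_, rfl⟩
  have hmn : m + n ≤ d * (k - 1) + 1 := by
    have h1 : r.natDegree = m + n := by
      rw [hg, natDegree_mul hlin0 hg0, ← hn, natDegree_prod_of_monic _ _
        (fun i _ => monic_X_sub_C (a i))]
      simp
    omega
  -- denominators
  obtain ⟨β, hβ0, hβ1, hβ⟩ := clearI (K := K) (((p.support.image p.coeff ∪
    q.support.image q.coeff) ∪ (mm.support.image mm.coeff ∪ g.support.image g.coeff)) ∪
    (Finset.univ.image a ∪ Finset.univ.image b))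
  have hco : ∀ P : K[X], P.support.image P.coeff ⊆
      (((p.support.image p.coeff ∪ q.support.image q.coeff) ∪
        (mm.support.image mm.coeff ∪ g.support.image g.coeff)) ∪
        (Finset.univ.image a ∪ Finset.univ.image b)) →
      ∀ (i : ℕ), IsIntegral ℤ (β * P.coeff i) := by
    intro P hP i
    by_cases h : P.coeff i = 0
    · rw [h, mul_zero]
      exact isIntegral_zero
    · exact hβ _ (hP (Finset.mem_image_of_mem _ (mem_support_iff.2 h)))
  have cp := hco p (fun x hx => by simp only [Finset.mem_union]; tauto)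
  have cq := hco q (fun x hx => by simp only [Finset.mem_union]; tauto)
  have cm := hco mm (fun x hx => by simp only [Finset.mem_union]; tauto)
  have cg := hco g (fun x hx => by simp only [Finset.mem_union]; tauto)
  have ca : ∀ i : Fin m, IsIntegral ℤ (β * a i) := fun i =>
    hβ _ (Finset.mem_union_right _ (Finset.mem_union_left _
      (Finset.mem_image_of_mem a (Finset.mem_univ i))))
  have cb : ∀ i : Fin k, IsIntegral ℤ (β * b i) := fun i =>
    hβ _ (Finset.mem_union_right _ (Finset.mem_union_right _
      (Finset.mem_image_of_mem b (Finset.mem_univ i))))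
  -- the constants
  obtain ⟨C1, hC1, low⟩ := lowA hd hcop hp hq hpq
  obtain ⟨C2, hC2, defg⟩ := defectA (C β * g) (n := n)
    (by rw [hn]; exact natDegree_C_mul_le β g) (fun i => by rw [coeff_C_mul]; exact cg i)
  obtain ⟨C4, hC4, defb⟩ := defectA (C β) (n := 0) (natDegree_C β).le (fun i => by
    rw [coeff_C]
    split_ifs
    · exact hβ1
    · exact isIntegral_zero)
  obtain ⟨C3, hC3, hcon⟩ := hconst (Finset.univ.image b)
  refine ⟨n, C1 + C2 + C3 + C4, hmn, by positivity, fun L _ _ _ t hta => ?_⟩
  obtain ⟨dL, hdL⟩ : ∃ dL : ℝ, dL = Module.finrank ℚ L := ⟨_, rfl⟩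
  have hdL1 : 1 ≤ dL := by
    rw [hdL]
    exact_mod_cast Module.finrank_pos
  obtain ⟨φ, hφ⟩ : ∃ φ : K →+* L, φ = algebraMap K L := ⟨_, rfl⟩
  have hlow := low L t
  have hdefg := defg L t
  have hdefb := defb L t
  have hcn := hcon L
  have intL : ∀ (w : FinitePlace L) {x : K}, IsIntegral ℤ x → w (φ x) ≤ 1 := by
    intro w x hx
    rw [hφ]
    exact int_le w hx
  have hLn := zero_le_logHeight₁ t
  have hroot : (q.map φ).eval t = 0 ∨ (∃ j, ((p - C (b j) * q).map φ).eval t = 0) →
      logHeight₁ t ≤ dL * (C1 + C3) := by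
    intro h
    have hdr : (1 : ℝ) ≤ d := by exact_mod_cast hd
    have h1 : logHeight ![(p.map φ).eval t, (q.map φ).eval t] ≤ dL * C3 := by
      rcases h with h | ⟨j, hj⟩
      · rw [log_height_zero (Or.inr (Or.inl h))]
        positivity
      · have e1 : (p.map φ).eval t = φ (b j) * (q.map φ).eval t := by
          rw [Polynomial.map_sub, Polynomial.map_mul, map_C, eval_sub, eval_mul, eval_C,
            sub_eq_zero] at hj
          exact hj
        by_cases h0 : (q.map φ).eval t = 0
        · rw [log_height_zero (Or.inr (Or.inl h0))]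
          positivity
        · rw [← logHeight₁_div_eq_logHeight, e1, mul_div_assoc, div_self h0, mul_one, hφ, hdL]
          exact hcn _ (Finset.mem_image_of_mem b (Finset.mem_univ j))
    rw [← hφ, ← hdL] at hlow
    nlinarith
  have hPol : (P0.map φ).eval t =
      (q.map φ).eval t * ∏ j, ((p - C (b j) * q).map φ).eval t := by
    rw [hP0]
    unfold Pol
    rw [Polynomial.map_mul, Polynomial.map_prod, eval_mul, eval_prod]
  rw [← hφ] at hlow hdefg hdefb ⊢
  rw [← hdL] at hlow hdefg hdefb ⊢
  refine ⟨fun h0 => ?_, fun hdegen => ?_⟩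
  · have h1 := hroot (by
      rw [hPol, mul_eq_zero, Finset.prod_eq_zero_iff] at h0
      rcases h0 with h | ⟨j, -, h⟩
      · exact Or.inl h
      · exact Or.inr ⟨j, h⟩)
    nlinarith
  · have hdegen' := hdegen
    rw [hPol, mul_ne_zero_iff, Finset.prod_ne_zero_iff] at hdegen'
    obtain ⟨n2, n3⟩ := hdegen'
    refine ⟨n2, fun y hy => ?_⟩
    have hyb : ∀ j, y - φ (b j) = ((p - C (b j) * q).map φ).eval t / (q.map φ).eval t := by
      intro j
      rw [hy, Polynomial.map_sub, Polynomial.map_mul, map_C, eval_sub, eval_mul, eval_C]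
      field_simp
    refine ⟨fun j h => ?_, ?_, fun S => ?_⟩
    · have h1 := hyb j
      rw [h, sub_self] at h1
      exact (div_ne_zero (n3 j (Finset.mem_univ j)) n2) h1.symm
    · rw [hy, logHeight₁_div_eq_logHeight]
      nlinarith
    · -- the primes of bad reduction
      obtain ⟨B, hBdef⟩ : ∃ B : Set (FinitePlace L), B = {v | v (φ β) < 1} := ⟨_, rfl⟩
      have hβL : φ β ≠ 0 := by
        rw [hφ, Ne, FaithfulSMul.algebraMap_eq_zero_iff]
        exact hβ0
      obtain ⟨hBfin, hBlog⟩ := hdefb (by rw [map_C, eval_C]; exact hβL)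
      rw [map_C, eval_C] at hBfin hBlog
      simp only [pow_zero, Nat.cast_zero, zero_mul, zero_add] at hBfin hBlog
      rw [← hBdef] at hBfin hBlog
      have hunit : ∀ v : FinitePlace L, v ∉ B → v (φ β) = 1 := by
        intro v hv
        rw [hBdef, Set.mem_ofPred_eq, not_lt] at hv
        exact le_antisymm (intL v hβ1) hv
      have good : ∀ v : FinitePlace L, v ∉ B → ∀ c : K, IsIntegral ℤ (β * c) → v (φ c) ≤ 1 := by
        intro v hv c hc
        have h1 := intL v hc
        rwa [map_mul, map_mul, hunit v hv, one_mul] at h1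
      obtain ⟨Tg, hTg⟩ : ∃ Tg : Set (FinitePlace L), Tg =
        {v | v (((C β * g).map φ).eval t) < (max (v t) 1) ^ n} := ⟨_, rfl⟩
      have key : ∀ (v : FinitePlace L), v ∉ B → v t ≤ 1 → (∀ i, ¬ Meets v (φ (a i)) t) →
          v ∉ Tg → v ((p.map φ).eval t) ≤ 1 ∧ v ((q.map φ).eval t) = 1 ∧
            ∀ j, v (((p - C (b j) * q).map φ).eval t) = 1 := by
        intro v hvB hvt hmeet hvg
        have hM : max (v t) 1 = 1 := max_eq_right hvt
        have ev : ∀ P : K[X], (∀ (i : ℕ), IsIntegral ℤ (β * P.coeff i)) →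
            v ((P.map φ).eval t) ≤ 1 := by
          intro P hP
          have := fin_eval v (P.map φ) (le_refl _) zero_le_one
            (fun i => by rw [coeff_map]; exact good v hvB _ (hP i)) t
          rwa [hM, one_pow, mul_one] at this
        have e1 := ev p cp
        have e2 := ev q cq
        have e3 := ev mm cm
        have e4 := ev g cg
        have e5 : ∀ j, v (((p - C (b j) * q).map φ).eval t) ≤ 1 := by
          intro j
          rw [Polynomial.map_sub, Polynomial.map_mul, map_C, eval_sub, eval_mul, eval_C]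
          have := FinitePlace.add_le v ((p.map φ).eval t) (-(φ (b j) * (q.map φ).eval t))
          rw [fneg', ← sub_eq_add_neg, map_mul] at this
          exact this.trans (max_le e1 (mul_le_one₀ (good v hvB _ (cb j)) (by positivity) e2))
        have e6 : ∀ i, v (t - φ (a i)) = 1 := by
          intro i
          have h1 := hmeet i
          unfold Meets at h1
          rw [not_lt, hM, one_mul] at h1
          refine le_antisymm ?_ ((le_max_right _ _).trans h1)
          have := FinitePlace.add_le v t (-φ (a i))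
          rw [fneg', ← sub_eq_add_neg] at this
          exact this.trans (max_le hvt (good v hvB _ (ca i)))
        have e7 : v ((g.map φ).eval t) = 1 := by
          refine le_antisymm e4 ?_
          rw [hTg, Set.mem_ofPred_eq, not_lt, hM, one_pow, Polynomial.map_mul, map_C, eval_mul,
            eval_C, map_mul, hunit v hvB, one_mul] at hvg
          exact hvg
        have e8 : v ((r.map φ).eval t) = 1 := by
          rw [hg, Polynomial.map_mul, Polynomial.map_prod, eval_mul, eval_prod, map_mul, e7,
            mul_one, map_prod]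
          refine Finset.prod_eq_one fun i _ => ?_
          rw [Polynomial.map_sub, map_X, map_C, eval_sub, eval_X, eval_C]
          exact e6 i
        have e9 : v ((q.map φ).eval t) * v ((mm.map φ).eval t) *
            ∏ j, v (((p - C (b j) * q).map φ).eval t) = 1 := by
          have h1 : ((r ^ NN).map φ).eval t = (q.map φ).eval t *
              (∏ j, ((p - C (b j) * q).map φ).eval t) * (mm.map φ).eval t := by
            rw [hmm, Polynomial.map_mul, eval_mul, hPol]
          have h2 : v (((r ^ NN).map φ).eval t) = 1 := by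
            rw [Polynomial.map_pow, eval_pow, map_pow, e8, one_pow]
          rw [h1, map_mul, map_mul, map_prod] at h2
          linarith
        obtain ⟨f1, f2⟩ := prod_one (fun j => by positivity) e5 (by positivity)
          (mul_le_one₀ e2 (by positivity) e3) e9
        refine ⟨e1, ?_, f2⟩
        refine le_antisymm e2 ?_
        calc (1 : ℝ) = v ((q.map φ).eval t) * v ((mm.map φ).eval t) := f1.symm
          _ ≤ v ((q.map φ).eval t) * 1 := by gcongr
          _ = _ := mul_one _
      have hgt : ((C β * g).map φ).eval t ≠ 0 := by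
        intro h
        rw [Polynomial.map_mul, map_C, eval_mul, eval_C] at h
        have h3 : (g.map φ).eval t = 0 := (mul_eq_zero.1 h).resolve_left hβL
        have h4 : (r.map φ).eval t = 0 := by
          rw [hg, Polynomial.map_mul, eval_mul, h3, mul_zero]
        apply hdegen
        obtain ⟨c, hc⟩ := hr1
        rw [hc, Polynomial.map_mul, eval_mul, h4, zero_mul]
      obtain ⟨hTfin, hTlog⟩ := hdefg hgt
      rw [← hTg] at hTfin hTlog
      have hsub : UsA S (fun j => φ (b j)) y ⊆ B ∪ (UsA S (fun i => φ (a i)) t ∪ Tg) := by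
        intro v hv
        by_contra hcon
        rw [Set.mem_union, not_or, Set.mem_union, not_or] at hcon
        obtain ⟨k1, k2, k4⟩ := hcon
        obtain ⟨hvS, hv⟩ := hv
        have hvt : v t ≤ 1 := by
          by_contra h
          push Not at h
          exact k2 ⟨hvS, Or.inr h⟩
        have hmeet : ∀ i, ¬ Meets v (φ (a i)) t := fun i h => k2 ⟨hvS, Or.inl ⟨i, h⟩⟩
        obtain ⟨e1, e2, e3⟩ := key v k1 hvt hmeet k4
        have f1 : v y ≤ 1 := by
          rw [hy, map_div₀, e2, div_one]
          exact e1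
        rcases hv with ⟨j, hv⟩ | hv
        · unfold Meets at hv
          rw [hyb j, map_div₀, e3 j, e2, div_one, max_eq_right f1,
            max_eq_right (good v k1 _ (cb j)), mul_one] at hv
          exact lt_irrefl _ hv
        · linarith
      have hUfin : (UsA S (fun i => φ (a i)) t).Finite := UsA_fin S (by rw [hφ]; exact hta)
      have b1 := PP_log hBfin (hUfin.union hTfin) hsub
      have b2 := PP_log hUfin hTfin (subset_refl (UsA S (fun i => φ (a i)) t ∪ Tg))
      have b3 : 0 ≤ dL * C1 := by positivity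
      have b4 : 0 ≤ dL * C3 := by positivity
      have e : dL * (C1 + C2 + C3 + C4) = dL * C1 + dL * C2 + dL * C3 + dL * C4 := by ring
      rw [e]
      linarith

end Q265.BD
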