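import Pool.Agent.Q265.BD.B

/-! # Counting functions and discriminants in towers -/

set_option autoImplicit false

open NumberField Height Function Polynomial

namespace Q265.BD

open Q241.AK Q265.NF Q265.BM Pool.Agent.H691R3

section tower

variable {k L : Type} [Field k] [NumberField k] [Field L] [NumberField L] [Algebra k L]

lemma lt_ext (v : FinitePlace k) (w : FinitePlace L)
    (h : w.maximalIdeal.asIdeal.LiesOver v.maximalIdeal.asIdeal) (x y : k) :
    w (algebraMap k L x) < w (algebraMap k L y) ↔ v x < v y := by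
  have := Pool.Agent.TH905.VF.fv_lt_ext v.maximalIdeal w.maximalIdeal h x y
  rw [fv_apply, fv_apply, fv_apply, fv_apply, FinitePlace.mk_maximalIdeal,
    FinitePlace.mk_maximalIdeal] at this
  exact this

lemma one_lt_ext (v : FinitePlace k) (w : FinitePlace L)
    (h : w.maximalIdeal.asIdeal.LiesOver v.maximalIdeal.asIdeal) (x : k) :
    1 < w (algebraMap k L x) ↔ 1 < v x := by
  have := lt_ext v w h 1 x
  rwa [map_one, map_one, map_one] at this

lemma maxrep (v : FinitePlace k) (w : FinitePlace L)
    (h : w.maximalIdeal.asIdeal.LiesOver v.maximalIdeal.asIdeal) (x : k) :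
    ∃ s : k, max (v x) 1 = v s ∧ max (w (algebraMap k L x)) 1 = w (algebraMap k L s) := by
  by_cases hx : 1 < v x
  · exact ⟨x, max_eq_left hx.le, max_eq_left ((one_lt_ext v w h x).2 hx).le⟩
  · refine ⟨1, ?_, ?_⟩
    · rw [map_one, max_eq_right (not_lt.1 hx)]
    · rw [map_one, map_one]
      refine max_eq_right (not_lt.1 fun h1 => hx ((one_lt_ext v w h x).1 h1))

lemma meets_ext (v : FinitePlace k) (w : FinitePlace L)
    (h : w.maximalIdeal.asIdeal.LiesOver v.maximalIdeal.asIdeal) {a t : k} (hm : Meets v a t) :
    Meets w (algebraMap k L a) (algebraMap k L t) := by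
  unfold Meets at hm ⊢
  obtain ⟨s1, e1, f1⟩ := maxrep v w h t
  obtain ⟨s2, e2, f2⟩ := maxrep v w h a
  rw [e1, e2, ← map_mul] at hm
  rw [f1, f2, ← map_mul, ← map_mul, ← map_sub, lt_ext v w h]
  exact hm

end tower

section sums

variable {k : Type} [Field k] [NumberField k]

lemma log_PP {V : Set (FinitePlace k)} (hV : V.Finite) :
    Real.log (PP V) = ∑ v ∈ hV.toFinset,
      Real.log ((Ideal.absNorm v.maximalIdeal.asIdeal : ℕ) : ℝ) := by
  classical
  unfold PP
  rw [Real.log_finprod (fun v => lt_of_lt_of_le one_pos (one_le_pr _ v))]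
  rw [finsum_eq_sum_of_support_subset (s := hV.toFinset)]
  · refine Finset.sum_congr rfl fun v hv => ?_
    rw [Set.Finite.mem_toFinset] at hv
    unfold pr N
    rw [if_pos hv]
  · intro v hv
    rw [Set.Finite.coe_toFinset]
    by_contra h
    apply hv
    show Real.log (pr V v) = 0
    unfold pr
    rw [if_neg h, Real.log_one]

end sums

section rel

variable {k L : Type} [Field k] [NumberField k] [Field L] [NumberField L] [Algebra k L]

theorem relPP {V : Set (FinitePlace k)} (hV : V.Finite) {W : Set (FinitePlace L)} (hW : W.Finite)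
    (h : ∀ v ∈ V, ∀ w : FinitePlace L,
      w.maximalIdeal.asIdeal.LiesOver v.maximalIdeal.asIdeal → w ∈ W) :
    (Module.finrank k L : ℝ) * (Real.log |(discr k : ℝ)| + Real.log (PP V)) ≤
      Real.log |(discr L : ℝ)| + Real.log (PP W) := by
  classical
  obtain ⟨W', hW', hrel⟩ := Pool.Agent.TH905.VF.rel (L := L)
    (hV.toFinset.image FinitePlace.maximalIdeal)
  rw [log_PP hV, log_PP hW]
  rw [Finset.sum_image fun v _ v' _ e => FinitePlace.maximalIdeal_injective e] at hrel
  refine hrel.trans (add_le_add_right ?_ _)
  have e : ∑ w ∈ hW.toFinset, Real.log ((Ideal.absNorm w.maximalIdeal.asIdeal : ℕ) : ℝ) =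
      ∑ w ∈ hW.toFinset.image FinitePlace.maximalIdeal, Real.log (Ideal.absNorm w.asIdeal) := by
    rw [Finset.sum_image fun v _ v' _ e => FinitePlace.maximalIdeal_injective e]
  rw [e]
  refine Finset.sum_le_sum_of_subset_of_nonneg ?_ fun w _ _ => Real.log_natCast_nonneg _
  intro w hw
  obtain ⟨v, hv, hover⟩ := hW' w hw
  rw [Finset.mem_image] at hv ⊢
  obtain ⟨v', hv', rfl⟩ := hv
  rw [Set.Finite.mem_toFinset] at hv'
  refine ⟨FinitePlace.mk w, ?_, FinitePlace.maximalIdeal_mk w⟩
  rw [Set.Finite.mem_toFinset]
  refine h v' hv' _ ?_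
  rw [FinitePlace.maximalIdeal_mk]
  exact hover

end rel

section glue

variable {K k L : Type} [Field K] [NumberField K] [Field k] [NumberField k] [Field L]
  [NumberField L] [Algebra K k] [Algebra K L]

/-- the finite places of `L` above the places in `S` -/
def Ab (S : Finset (FinitePlace K)) (L : Type) [Field L] [NumberField L] [Algebra K L] :
    Set (FinitePlace L) :=
  {w | ∃ s ∈ S, w.maximalIdeal.asIdeal.LiesOver s.maximalIdeal.asIdeal}

/-- the counting function and the discriminant for a subfield -/
theorem glue (f : k →ₐ[K] L) (S : Finset (FinitePlace K)) {m : ℕ} (b : Fin m → K) {y : k}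
    (hy : ∀ j, f y ≠ algebraMap K L (b j)) :
    Module.finrank K L * Real.log (PP (UsA (Ab S k) (fun j => algebraMap K k (b j)) y)) +
      Module.finrank K L * Real.log |(discr k : ℝ)| ≤
      Module.finrank K k * (Real.log |(discr L : ℝ)| +
        Real.log (PP (UsA (Ab S L) (fun j => algebraMap K L (b j)) (f y)))) ∧
    Module.finrank K k * logHeight₁ (f y) = Module.finrank K L * logHeight₁ y := by
  let _ : Algebra k L := f.toRingHom.toAlgebra
  have ef : ∀ x : k, algebraMap k L x = f x := fun x => rfl
  have : IsScalarTower K k L := IsScalarTower.of_algebraMap_eq fun x => by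
    rw [ef, AlgHom.commutes]
  have hfr : Module.finrank K k * Module.finrank k L = Module.finrank K L :=
    Module.finrank_mul_finrank K k L
  have hfr' : (Module.finrank K L : ℝ) = Module.finrank K k * Module.finrank k L := by
    exact_mod_cast hfr.symm
  have hy' : ∀ j, y ≠ algebraMap K k (b j) := by
    intro j h
    apply hy j
    rw [h, AlgHom.commutes]
  constructor
  · have hrel := relPP (k := k) (L := L) (UsA_fin (Ab S k) hy') (UsA_fin (Ab S L) hy) ?_
    · rw [hfr']
      have h0 : (0 : ℝ) ≤ Module.finrank K k := by positivity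
      have := mul_le_mul_of_nonneg_left hrel h0
      linarith
    · intro v hv w hw
      refine ⟨?_, ?_⟩
      · rintro ⟨s, hs, hws⟩
        apply hv.1
        refine ⟨s, hs, ?_⟩
        have hw' := hw
        exact Ideal.LiesOver.tower_bot w.maximalIdeal.asIdeal v.maximalIdeal.asIdeal
          s.maximalIdeal.asIdeal
      · rcases hv.2 with ⟨j, hj⟩ | h1
        · left
          refine ⟨j, ?_⟩
          have := meets_ext v w hw hj
          rw [ef, ef, AlgHom.commutes] at this
          exact this
        · right
          have := (one_lt_ext v w hw y).2 h1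
          rwa [ef] at this
  · rw [← ef, ext1 (K := k) (L := L), hfr']
    ring

end glue

end Q265.BD
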