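import Pool.Agent.Q265.BD.C

/-! # The discriminant of a compositum -/

set_option autoImplicit false

open NumberField Polynomial

namespace Q265.BD

section disc

variable {F L M : Type} [Field F] [NumberField F] [Field L] [NumberField L] [Field M]
  [NumberField M] [Algebra L M] [Algebra F M]

/-- the discriminant of an extension generated by an integer of `F` -/
theorem disc_le (θ : 𝓞 F) (htop : Algebra.adjoin L {algebraMap F M (θ : F)} = ⊤)
    (hδ : aeval θ (derivative (minpoly ℤ θ)) ≠ 0) :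
    Real.log |(discr M : ℝ)| ≤ Module.finrank L M * Real.log |(discr L : ℝ)| +
      Module.finrank ℚ M * Real.log
        (Ideal.absNorm (Ideal.span {aeval θ (derivative (minpoly ℤ θ))}) : ℕ) := by
  obtain ⟨P, hP⟩ : ∃ P : ℤ[X], P = minpoly ℤ θ := ⟨_, rfl⟩
  obtain ⟨δ, hδd⟩ : ∃ δ : 𝓞 F, δ = aeval θ (derivative P) := ⟨_, rfl⟩
  rw [← hP, ← hδd] at hδ ⊢
  obtain ⟨θ', hθ'⟩ : ∃ θ' : 𝓞 M, θ' = algebraMap (𝓞 F) (𝓞 M) θ := ⟨_, rfl⟩
  obtain ⟨δ', hδ'⟩ : ∃ δ' : 𝓞 M, δ' = algebraMap (𝓞 F) (𝓞 M) δ := ⟨_, rfl⟩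
  have hev : aeval θ P = 0 := by rw [hP]; exact minpoly.aeval ℤ θ
  have hδe : δ' = aeval θ' (derivative P) := by
    rw [hδ', hδd, hθ', aeval_algebraMap_apply]
  have hev' : aeval θ' P = 0 := by
    rw [hθ', aeval_algebraMap_apply, hev, map_zero]
  have hδ'0 : δ' ≠ 0 := by
    rw [hδ']
    intro h
    exact hδ ((FaithfulSMul.algebraMap_eq_zero_iff (𝓞 F) (𝓞 M)).1 h)
  -- the minimal polynomial
  have hint : IsIntegral (𝓞 L) θ' := Algebra.IsIntegral.isIntegral θ'
  have hdvd : minpoly (𝓞 L) θ' ∣ P.map (algebraMap ℤ (𝓞 L)) := by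
    refine minpoly.isIntegrallyClosed_dvd hint ?_
    rw [aeval_map_algebraMap]
    exact hev'
  obtain ⟨h, hh⟩ := hdvd
  have hmem0 : aeval θ' (derivative (minpoly (𝓞 L) θ')) ∈ differentIdeal (𝓞 L) (𝓞 M) := by
    refine aeval_derivative_mem_differentIdeal (𝓞 L) L M θ' ?_
    have : algebraMap (𝓞 M) M θ' = algebraMap F M (θ : F) := by
      rw [hθ']
      rfl
    rw [this]
    exact htop
  have hmem : δ' ∈ differentIdeal (𝓞 L) (𝓞 M) := by
    have e1 : δ' = aeval θ' (derivative (P.map (algebraMap ℤ (𝓞 L)))) := by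
      rw [derivative_map, aeval_map_algebraMap]
      exact hδe
    rw [e1, hh, derivative_mul, map_add, map_mul, map_mul, minpoly.aeval, zero_mul, add_zero]
    exact Ideal.mul_mem_right _ _ hmem0
  have hle : Ideal.span {δ'} ≤ differentIdeal (𝓞 L) (𝓞 M) := by
    rw [Ideal.span_le, Set.singleton_subset_iff]
    exact hmem
  have hN0 : Ideal.absNorm (Ideal.span {δ'}) ≠ 0 := by
    rw [Ne, Ideal.absNorm_eq_zero_iff, Ideal.span_singleton_eq_bot]
    exact hδ'0
  have hN : Ideal.absNorm (differentIdeal (𝓞 L) (𝓞 M)) ≤ Ideal.absNorm (Ideal.span {δ'}) :=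
    Nat.le_of_dvd (Nat.pos_of_ne_zero hN0) (Ideal.absNorm_dvd_absNorm_of_le hle)
  have hN' : Ideal.absNorm (Ideal.span {δ'}) =
      Ideal.absNorm (Ideal.span {δ}) ^ Module.finrank (𝓞 F) (𝓞 M) := by
    rw [← Ideal.absNorm_algebraMap (𝓞 F) (𝓞 M) (Ideal.span {δ}), Ideal.map_span,
      Set.image_singleton, hδ']
  have hfr : Module.finrank (𝓞 F) (𝓞 M) = Module.finrank F M :=
    (IsFractionRing.finrank_eq (𝓞 F) F (𝓞 M) M).symm
  have hdisc := NumberField.natAbs_discr_eq_absNorm_differentIdeal_mul_natAbs_discr_pow L (𝓞 L) M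
    (𝓞 M)
  have hdiff0 : Ideal.absNorm (differentIdeal (𝓞 L) (𝓞 M)) ≠ 0 := by
    intro h
    rw [h, zero_mul] at hdisc
    exact NumberField.discr_ne_zero M (Int.natAbs_eq_zero.1 hdisc)
  have s5 : Real.log |(discr M : ℝ)| = Real.log (Ideal.absNorm (differentIdeal (𝓞 L) (𝓞 M))) +
      Module.finrank L M * Real.log |(discr L : ℝ)| := by
    have e1 : |(discr M : ℝ)| = ((discr M).natAbs : ℝ) := by
      rw [← Int.cast_abs, Int.abs_eq_natAbs]
      simp
    have e2 : |(discr L : ℝ)| = ((discr L).natAbs : ℝ) := by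
      rw [← Int.cast_abs, Int.abs_eq_natAbs]
      simp
    rw [e1, e2, hdisc]
    push_cast
    rw [Real.log_mul (by exact_mod_cast hdiff0) ?_, Real.log_pow]
    refine pow_ne_zero _ ?_
    have := NumberField.discr_ne_zero L
    exact_mod_cast Int.natAbs_ne_zero.2 this
  have s6 : Real.log (Ideal.absNorm (differentIdeal (𝓞 L) (𝓞 M))) ≤
      Module.finrank ℚ M * Real.log (Ideal.absNorm (Ideal.span {δ}) : ℕ) := by
    have h1 : Real.log ((Ideal.absNorm (differentIdeal (𝓞 L) (𝓞 M)) : ℕ) : ℝ) ≤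
        Real.log ((Ideal.absNorm (Ideal.span {δ'}) : ℕ) : ℝ) := by
      refine Real.log_le_log ?_ (by exact_mod_cast hN)
      exact_mod_cast Nat.pos_of_ne_zero hdiff0
    rw [hN', hfr, Nat.cast_pow, Real.log_pow] at h1
    have h2 : (0 : ℝ) ≤ Real.log ((Ideal.absNorm (Ideal.span {δ}) : ℕ) : ℝ) :=
      Real.log_natCast_nonneg _
    have h3 : (Module.finrank F M : ℝ) ≤ Module.finrank ℚ M := by
      rw [← Module.finrank_mul_finrank ℚ F M]
      push_cast
      have h3 : (1 : ℝ) ≤ Module.finrank ℚ F := by exact_mod_cast Module.finrank_pos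
      nlinarith [(Nat.cast_nonneg (Module.finrank F M) : (0 : ℝ) ≤ Module.finrank F M)]
    exact h1.trans (mul_le_mul_of_nonneg_right h3 h2)
  rw [s5]
  linarith

end disc

section comp

variable (K F : Type) [Field K] [NumberField K] [Field F] [NumberField F] [Algebra K F]

/-- an integral primitive element -/
lemma exists_prim : ∃ θ : 𝓞 F, Algebra.adjoin K {(θ : F)} = ⊤ := by
  obtain ⟨α, hα⟩ := Field.exists_primitive_element K F
  have halg : IsAlgebraic ℤ α := (IsFractionRing.isAlgebraic_iff ℤ ℚ F).2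
    (Algebra.IsAlgebraic.isAlgebraic α)
  obtain ⟨n, hn0, hn⟩ := halg.exists_integral_multiple
  refine ⟨⟨n • α, hn⟩, ?_⟩
  have h1 : IntermediateField.adjoin K {n • α} = ⊤ := by
    rw [eq_top_iff, ← hα, IntermediateField.adjoin_simple_le_iff]
    have h2 : n • α ∈ IntermediateField.adjoin K {n • α} :=
      IntermediateField.mem_adjoin_simple_self K _
    have h3 : (n : F) ≠ 0 := by exact_mod_cast hn0
    have h4 : α = (n : F)⁻¹ * (n • α) := by
      rw [zsmul_eq_mul, ← mul_assoc, inv_mul_cancel₀ h3, one_mul]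
    have h5 : (n : F)⁻¹ ∈ IntermediateField.adjoin K {n • α} := by
      refine inv_mem ?_
      exact intCast_mem _ n
    have h6 := mul_mem h5 h2
    rwa [← h4] at h6
  have h2 := congrArg IntermediateField.toSubalgebra h1
  rw [IntermediateField.adjoin_simple_toSubalgebra_of_isAlgebraic
    (Algebra.IsAlgebraic.isAlgebraic (n • α)), IntermediateField.top_toSubalgebra] at h2
  exact h2

/-- the composita of `F` with the extensions of `K` -/
theorem compositum : ∃ C : ℝ, 0 ≤ C ∧ ∀ (L : Type) [Field L] [NumberField L] [Algebra K L],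
    ∃ (M : Type) (_ : Field M) (_ : NumberField M) (_ : Algebra K M) (_ : Algebra L M)
      (_ : Algebra F M) (_ : IsScalarTower K L M) (_ : IsScalarTower K F M),
      Module.finrank L M ≤ Module.finrank K F ∧
      Real.log |(discr M : ℝ)| ≤ Module.finrank L M * Real.log |(discr L : ℝ)| +
        Module.finrank ℚ M * C := by
  obtain ⟨θ, hθ⟩ := exists_prim K F
  refine ⟨Real.log (Ideal.absNorm (Ideal.span {aeval θ (derivative (minpoly ℤ θ))}) : ℕ),
    Real.log_natCast_nonneg _, fun L _ _ _ => ?_⟩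
  have hδ : aeval θ (derivative (minpoly ℤ θ)) ≠ 0 := by
    have h1 : minpoly ℤ θ = minpoly ℤ (θ : F) :=
      (minpoly.algebraMap_eq (B' := F) RingOfIntegers.coe_injective θ).symm
    have h2 : minpoly ℚ (θ : F) = (minpoly ℤ (θ : F)).map (algebraMap ℤ ℚ) :=
      minpoly.isIntegrallyClosed_eq_field_fractions' ℚ (RingOfIntegers.isIntegral_coe θ)
    have hsep : (minpoly ℚ (θ : F)).Separable :=
      (minpoly.irreducible (Algebra.IsIntegral.isIntegral (θ : F))).separable
    intro h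
    have h3 : aeval (θ : F) (derivative (minpoly ℚ (θ : F))) = 0 := by
      rw [h2, derivative_map, aeval_map_algebraMap, ← h1]
      have h4 := congrArg (algebraMap (𝓞 F) F) h
      rw [← aeval_algebraMap_apply, map_zero] at h4
      exact h4
    exact hsep.aeval_derivative_ne_zero (minpoly.aeval ℚ (θ : F)) h3
  have hint : IsIntegral K (θ : F) := Algebra.IsIntegral.isIntegral (θ : F)
  obtain ⟨μ, hμ⟩ : ∃ μ : L[X], μ = (minpoly K (θ : F)).map (algebraMap K L) := ⟨_, rfl⟩
  have hμdeg : μ.natDegree = (minpoly K (θ : F)).natDegree := by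
    rw [hμ]
    exact natDegree_map _
  have hμpos : μ.natDegree ≠ 0 := by
    rw [hμdeg]
    exact (minpoly.natDegree_pos hint).ne'
  obtain ⟨g, hg, hgμ⟩ := exists_irreducible_of_natDegree_ne_zero hμpos
  have hμ0 : μ ≠ 0 := by
    rintro rfl
    exact hμpos natDegree_zero
  have hfact : Fact (Irreducible g) := ⟨hg⟩
  have hfd : Module.Finite L (AdjoinRoot g) := (AdjoinRoot.powerBasis hg.ne_zero).finite
  have hnf : NumberField (AdjoinRoot g) := NumberField.of_module_finite L (AdjoinRoot g)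
  have hroot : aeval (AdjoinRoot.root g) (minpoly K (θ : F)) = 0 := by
    have h1 : aeval (AdjoinRoot.root g) μ = 0 := by
      rw [AdjoinRoot.aeval_eq, AdjoinRoot.mk_eq_zero]
      exact hgμ
    rw [hμ, aeval_map_algebraMap] at h1
    exact h1
  obtain ⟨f, hf⟩ : ∃ f : F →ₐ[K] AdjoinRoot g, f (θ : F) = AdjoinRoot.root g := by
    have hgen : (PowerBasis.ofAdjoinEqTop' hint hθ).gen = (θ : F) :=
      PowerBasis.ofAdjoinEqTop'_gen hint hθ
    refine ⟨(PowerBasis.ofAdjoinEqTop' hint hθ).lift (AdjoinRoot.root g)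
      (by rw [hgen]; exact hroot), ?_⟩
    have h2 := (PowerBasis.ofAdjoinEqTop' hint hθ).lift_gen (AdjoinRoot.root g)
      (by rw [hgen]; exact hroot)
    exact (congrArg _ hgen).symm.trans h2
  let _ : Algebra F (AdjoinRoot g) := f.toRingHom.toAlgebra
  have ef : ∀ x : F, algebraMap F (AdjoinRoot g) x = f x := fun x => rfl
  have ht : IsScalarTower K F (AdjoinRoot g) := IsScalarTower.of_algebraMap_eq fun x => by
    rw [ef, AlgHom.commutes]
  refine ⟨AdjoinRoot g, inferInstance, hnf, inferInstance, inferInstance, inferInstance,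
    inferInstance, ht, ?_, ?_⟩
  · have h1 : Module.finrank L (AdjoinRoot g) = g.natDegree := by
      rw [(AdjoinRoot.powerBasis hg.ne_zero).finrank, AdjoinRoot.powerBasis_dim]
    rw [h1]
    exact (natDegree_le_of_dvd hgμ hμ0).trans (hμdeg.le.trans (minpoly.natDegree_le (θ : F)))
  · refine disc_le θ ?_ hδ
    rw [ef, hf]
    exact AdjoinRoot.adjoinRoot_eq_top

end comp

end Q265.BD
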