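import Pool.Agent.Q265.BD.D

/-! # Belyi maps over extensions of the ground field -/

set_option autoImplicit false

open NumberField Height Function Polynomial

namespace Q265.BD

open Q241.AK Q265.NF Q265.BM

section up

variable {L M : Type} [Field L] [NumberField L] [Field M] [NumberField M] [Algebra L M]

/-- the place below -/
lemma exists_below (w : FinitePlace M) :
    ∃ v : FinitePlace L, w.maximalIdeal.asIdeal.LiesOver v.maximalIdeal.asIdeal := by
  have hprime : (w.maximalIdeal.asIdeal.under (𝓞 L)).IsPrime := by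
    have := w.maximalIdeal.isPrime
    infer_instance
  have hne : w.maximalIdeal.asIdeal.under (𝓞 L) ≠ ⊥ :=
    Ideal.IsIntegral.comap_ne_bot (𝓞 L) w.maximalIdeal.ne_bot
  refine ⟨FinitePlace.mk ⟨w.maximalIdeal.asIdeal.under (𝓞 L), hprime, hne⟩, ?_⟩
  rw [FinitePlace.maximalIdeal_mk]
  exact ⟨rfl⟩

/-- the local degrees of the primes above `v` add up to at most the degree -/
lemma sum_le (v : FinitePlace L) (W : Finset (FinitePlace M))
    (hW : ∀ w ∈ W, w.maximalIdeal.asIdeal.LiesOver v.maximalIdeal.asIdeal) :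
    ∑ w ∈ W, Real.log ((Ideal.absNorm w.maximalIdeal.asIdeal : ℕ) : ℝ) ≤
      Module.finrank L M * Real.log ((Ideal.absNorm v.maximalIdeal.asIdeal : ℕ) : ℝ) := by
  classical
  obtain ⟨p, hp⟩ : ∃ p : Ideal (𝓞 L), p = v.maximalIdeal.asIdeal := ⟨_, rfl⟩
  have hpb : p ≠ ⊥ := by rw [hp]; exact v.maximalIdeal.ne_bot
  have hpp : p.IsPrime := by rw [hp]; exact v.maximalIdeal.isPrime
  have hmax : p.IsMaximal := by rw [hp]; exact v.maximalIdeal.isMaximal
  rw [← hp] at hW ⊢
  have hlog : 0 ≤ Real.log ((Ideal.absNorm p : ℕ) : ℝ) := Real.log_natCast_nonneg _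
  have h1 := Ideal.sum_ramification_inertia (𝓞 M) L M (p := p) hpb
  have h2 : ∑ w ∈ W, p.ramificationIdx' w.maximalIdeal.asIdeal *
      p.inertiaDeg' w.maximalIdeal.asIdeal ≤ Module.finrank L M := by
    rw [← h1]
    have e1 : ∑ w ∈ W, p.ramificationIdx' w.maximalIdeal.asIdeal *
        p.inertiaDeg' w.maximalIdeal.asIdeal =
        ∑ P ∈ W.image (fun w => w.maximalIdeal.asIdeal),
        p.ramificationIdx' P * p.inertiaDeg' P := by
      rw [Finset.sum_image]
      intro a _ b _ hab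
      exact FinitePlace.maximalIdeal_injective (IsDedekindDomain.HeightOneSpectrum.ext hab)
    rw [e1]
    refine Finset.sum_le_sum_of_subset ?_
    intro P hP
    obtain ⟨w, hw, rfl⟩ := Finset.mem_image.1 hP
    exact (IsDedekindDomain.mem_primesOverFinset_iff hpb _).2 ⟨w.maximalIdeal.isPrime, hW w hw⟩
  have h3 : ∀ w ∈ W, Real.log ((Ideal.absNorm w.maximalIdeal.asIdeal : ℕ) : ℝ) ≤
      ((p.ramificationIdx' w.maximalIdeal.asIdeal * p.inertiaDeg' w.maximalIdeal.asIdeal : ℕ) : ℝ) *
        Real.log ((Ideal.absNorm p : ℕ) : ℝ) := by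
    intro w hw
    have hover := hW w hw
    have hN := Ideal.absNorm_eq_pow_inertiaDeg'_of_liesOver w.maximalIdeal.asIdeal p hpp hpb
    rw [hN, Nat.cast_pow, Real.log_pow]
    have he : p.ramificationIdx' w.maximalIdeal.asIdeal ≠ 0 :=
      Ideal.IsDedekindDomain.ramificationIdx'_ne_zero_of_liesOver w.maximalIdeal.asIdeal hpb
    have h4 : p.inertiaDeg' w.maximalIdeal.asIdeal ≤
        p.ramificationIdx' w.maximalIdeal.asIdeal * p.inertiaDeg' w.maximalIdeal.asIdeal :=
      Nat.le_mul_of_pos_left _ (Nat.pos_of_ne_zero he)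
    exact mul_le_mul_of_nonneg_right (by exact_mod_cast h4) hlog
  refine (Finset.sum_le_sum h3).trans ?_
  rw [← Finset.sum_mul]
  refine mul_le_mul_of_nonneg_right ?_ hlog
  exact_mod_cast h2

/-- the counting function in an extension -/
theorem PP_up {V : Set (FinitePlace L)} (hV : V.Finite) {W : Set (FinitePlace M)} (hW : W.Finite)
    (h : ∀ w ∈ W, ∃ v ∈ V, w.maximalIdeal.asIdeal.LiesOver v.maximalIdeal.asIdeal) :
    Real.log (PP W) ≤ Module.finrank L M * Real.log (PP V) := by
  classical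
  rw [log_PP hV, log_PP hW]
  choose φ hφ using fun w : FinitePlace M => exists_below (L := L) w
  have hmap : ∀ w ∈ hW.toFinset, φ w ∈ hV.toFinset := by
    intro w hw
    rw [Set.Finite.mem_toFinset] at hw ⊢
    obtain ⟨v, hv, hwv⟩ := h w hw
    have e : φ w = v := FinitePlace.maximalIdeal_injective
      (IsDedekindDomain.HeightOneSpectrum.ext ((hφ w).over.trans hwv.over.symm))
    rw [e]
    exact hv
  rw [← Finset.sum_fiberwise_of_maps_to hmap, Finset.mul_sum]
  refine Finset.sum_le_sum fun v _ => sum_le v _ fun w hw => ?_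
  rw [Finset.mem_filter, Set.Finite.mem_toFinset] at hw
  rw [← hw.2]
  exact hφ w

/-- the finite places above the places in `S` -/
def Up (S : Set (FinitePlace L)) (M : Type) [Field M] [NumberField M] [Algebra L M] :
    Set (FinitePlace M) :=
  {w | ∃ v ∈ S, w.maximalIdeal.asIdeal.LiesOver v.maximalIdeal.asIdeal}

lemma meets_ext_iff (v : FinitePlace L) (w : FinitePlace M)
    (h : w.maximalIdeal.asIdeal.LiesOver v.maximalIdeal.asIdeal) (a t : L) :
    Meets w (algebraMap L M a) (algebraMap L M t) ↔ Meets v a t := by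
  unfold Meets
  obtain ⟨s1, e1, f1⟩ := maxrep v w h t
  obtain ⟨s2, e2, f2⟩ := maxrep v w h a
  rw [e1, e2, ← map_mul, f1, f2, ← map_mul, ← map_mul, ← map_sub, lt_ext v w h]

theorem UsA_up (S : Set (FinitePlace L)) {m : ℕ} {a : Fin m → L} {t : L} (ht : ∀ i, t ≠ a i) :
    Real.log (PP (UsA (Up S M) (fun i => algebraMap L M (a i)) (algebraMap L M t))) ≤
      Module.finrank L M * Real.log (PP (UsA S a t)) := by
  have ht' : ∀ i, algebraMap L M t ≠ algebraMap L M (a i) := fun i h =>
    ht i ((algebraMap L M).injective h)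
  refine PP_up (UsA_fin S ht) (UsA_fin _ ht') fun w hw => ?_
  obtain ⟨v, hv⟩ := exists_below (L := L) w
  refine ⟨v, ⟨fun hS => hw.1 ⟨v, hS, hv⟩, ?_⟩, hv⟩
  rcases hw.2 with ⟨i, hi⟩ | h1
  · exact Or.inl ⟨i, (meets_ext_iff v w hv _ _).1 hi⟩
  · exact Or.inr ((one_lt_ext v w hv t).1 h1)

end up

end Q265.BD
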