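import Pool.Agent.Q265.BD.E

/-! # Belyi maps over extensions of the ground field, the main lemma -/

set_option autoImplicit false

open NumberField Height Function Polynomial

namespace Q265.BD

open Q241.AK Q265.NF Q265.BM

lemma Pol3 {F : Type} [Field F] (p q : F[X]) : Pol p q ![0, 1] = q * (p * (p - q)) := by
  unfold Pol
  rw [Fin.prod_univ_two]
  simp

section roots

variable {F : Type} [Field F]

/-- two different roots -/
lemma two_roots {p q : F[X]} {d : ℕ} (hd : 1 ≤ d) (hcop : IsCoprime p q)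
    (hpq : p.natDegree = d ∨ q.natDegree = d) (hne : q * (p * (p - q)) ≠ 0)
    (hs : (q * (p * (p - q))).Splits) :
    ∃ α β : F, α ≠ β ∧ (q * (p * (p - q))).eval α = 0 ∧ (q * (p * (p - q))).eval β = 0 := by
  have hq : q.Splits := hs.of_dvd hne (dvd_mul_right _ _)
  have hp : p.Splits := hs.of_dvd hne ⟨q * (p - q), by ring⟩
  have hr : (p - q).Splits := hs.of_dvd hne ⟨q * p, by ring⟩
  have root : ∀ f : F[X], f.Splits → f.natDegree ≠ 0 → ∃ x, f.eval x = 0 := by
    intro f hf h0
    exact hf.exists_eval_eq_zero fun h => h0 (natDegree_eq_of_degree_eq_some h)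
  obtain ⟨a, b, hab⟩ := hcop
  have hno : ∀ x : F, p.eval x = 0 → q.eval x = 0 → False := by
    intro x h1 h2
    have := congrArg (Polynomial.eval x) hab
    rw [eval_add, eval_mul, eval_mul, h1, h2, mul_zero, mul_zero, add_zero, eval_one] at this
    exact zero_ne_one this
  by_cases h1 : q.natDegree = 0
  · have hpd : p.natDegree = d := hpq.resolve_right (by omega)
    obtain ⟨x, hx⟩ := root p hp (by omega)
    have hrd : (p - q).natDegree ≠ 0 := by
      rw [natDegree_sub_eq_left_of_natDegree_lt (by omega)]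
      omega
    obtain ⟨y, hy⟩ := root (p - q) hr hrd
    refine ⟨x, y, ?_, ?_, ?_⟩
    · rintro rfl
      rw [eval_sub, hx, zero_sub, neg_eq_zero] at hy
      exact hno x hx hy
    · rw [eval_mul, eval_mul, hx]
      ring
    · rw [eval_mul, eval_mul, hy]
      ring
  · obtain ⟨x, hx⟩ := root q hq h1
    by_cases h2 : p.natDegree = 0
    · have hrd : (p - q).natDegree ≠ 0 := by
        rw [natDegree_sub_eq_right_of_natDegree_lt (by omega)]
        omega
      obtain ⟨y, hy⟩ := root (p - q) hr hrd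
      refine ⟨x, y, ?_, ?_, ?_⟩
      · rintro rfl
        rw [eval_sub, hx, sub_zero] at hy
        exact hno x hy hx
      · rw [eval_mul, hx, zero_mul]
      · rw [eval_mul, eval_mul, hy]
        ring
    · obtain ⟨y, hy⟩ := root p hp h2
      refine ⟨x, y, ?_, ?_, ?_⟩
      · rintro rfl
        exact hno x hy hx
      · rw [eval_mul, hx, zero_mul]
      · rw [eval_mul, eval_mul, hy]
        ring

/-- two different roots, general form -/
lemma two_roots' {p q : F[X]} {d : ℕ} (hd : 1 ≤ d) (hcop : IsCoprime p q)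
    (hp : p.natDegree ≤ d) (hq : q.natDegree ≤ d)
    (hpq : p.natDegree = d ∨ q.natDegree = d) {k : ℕ} (hk : 2 ≤ k) {b : Fin k → F}
    (hb : Function.Injective b) (hne : Pol p q b ≠ 0) (hs : (Pol p q b).Splits) :
    ∃ α β : F, α ≠ β ∧ (Pol p q b).eval α = 0 ∧ (Pol p q b).eval β = 0 := by
  obtain ⟨c, hc⟩ : ∃ c : F, c = b ⟨1, by omega⟩ - b ⟨0, by omega⟩ := ⟨_, rfl⟩
  have hc0 : c ≠ 0 := by
    rw [hc, sub_ne_zero]
    intro h
    have := hb h
    rw [Fin.mk.injEq] at this
    omega
  obtain ⟨p', hp'⟩ : ∃ p' : F[X], p' = p - C (b ⟨0, by omega⟩) * q := ⟨_, rfl⟩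
  have hsub : p' - C c * q = p - C (b ⟨1, by omega⟩) * q := by
    rw [hp', hc, C_sub]
    ring
  have hCc : IsUnit (C c : F[X]) := isUnit_C.2 hc0.isUnit
  have hcop1 : IsCoprime p' q := by
    rw [hp']
    obtain ⟨u, v, huv⟩ := hcop
    exact ⟨u, v + u * C (b ⟨0, by omega⟩), by linear_combination huv⟩
  have hcop' : IsCoprime p' (C c * q) :=
    (isCoprime_mul_unit_left_right hCc p' q).2 hcop1
  have hdeg : p'.natDegree = d ∨ (C c * q).natDegree = d := by
    rw [natDegree_C_mul hc0]
    by_cases h : q.natDegree = d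
    · exact Or.inr h
    · left
      have h1 : p.natDegree = d := hpq.resolve_right h
      rw [hp', natDegree_sub_eq_left_of_natDegree_lt]
      · exact h1
      · have := natDegree_C_mul_le (b ⟨0, by omega⟩) q
        omega
  have hdvd : C c * q * (p' * (p' - C c * q)) ∣ Pol p q b := by
    rw [mul_assoc]
    rw [(associated_unit_mul_left _ _ hCc).dvd_iff_dvd_left]
    unfold Pol
    refine mul_dvd_mul_left q ?_
    rw [hsub, hp']
    have h1 := Finset.prod_dvd_prod_of_subset ({⟨0, by omega⟩, ⟨1, by omega⟩} : Finset (Fin k))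
      Finset.univ (fun j => p - C (b j) * q) (Finset.subset_univ _)
    rwa [Finset.prod_pair (by
      intro h
      rw [Fin.mk.injEq] at h
      omega)] at h1
  have hne' : C c * q * (p' * (p' - C c * q)) ≠ 0 := fun h => by
    rw [h] at hdvd
    exact hne (zero_dvd_iff.1 hdvd)
  obtain ⟨α, β, h1, h2, h3⟩ := two_roots hd hcop' hdeg hne' (hs.of_dvd hne hdvd)
  obtain ⟨e, he⟩ := hdvd
  exact ⟨α, β, h1, by rw [he, eval_mul, h2, zero_mul], by rw [he, eval_mul, h3, zero_mul]⟩

end roots

section affine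

variable {F : Type} [Field F] [NumberField F]

/-- the case of two rational roots -/
theorem stepB {p q : F[X]} {d : ℕ} (hd : 1 ≤ d) (hcop : IsCoprime p q) (hp : p.natDegree ≤ d)
    (hq : q.natDegree ≤ d) (hpq : p.natDegree = d ∨ q.natDegree = d) {k : ℕ} {b : Fin k → F}
    {r : F[X]} (hr1 : r ∣ Pol p q b) {NN : ℕ} (hNN : Pol p q b ∣ r ^ NN)
    (hne : Pol p q b ≠ 0) (hrad : r.natDegree ≤ d * (k - 1) + 1) {α β : F} (hαβ : α ≠ β)
    (hα : (Pol p q b).eval α = 0) (hβ : (Pol p q b).eval β = 0) :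
    ∃ (n : ℕ) (C : ℝ), 2 + n ≤ d * (k - 1) + 1 ∧ 0 ≤ C ∧
      ∀ (M : Type) [Field M] [NumberField M] [Algebra F M] (s : M),
      s ≠ 0 → s ≠ 1 → ∃ t : M,
        (((Pol p q b).map (algebraMap F M)).eval t = 0 →
          logHeight₁ s ≤ Module.finrank ℚ M * C) ∧
        (((Pol p q b).map (algebraMap F M)).eval t ≠ 0 →
          (q.map (algebraMap F M)).eval t ≠ 0 ∧
          ∀ y : M, y = (p.map (algebraMap F M)).eval t / (q.map (algebraMap F M)).eval t →
            (∀ j, y ≠ algebraMap F M (b j)) ∧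
            d * logHeight₁ s ≤ logHeight₁ y + Module.finrank ℚ M * C ∧
            ∀ S : Set (FinitePlace M), Real.log (PP (UsA S (fun j => algebraMap F M (b j)) y)) ≤
              Real.log (PP (UsA S ![0, 1] s)) + n * logHeight₁ s +
                Module.finrank ℚ M * C) := by
  obtain ⟨l, hl⟩ : ∃ l : F[X], l = C (β - α) * X + C α := ⟨_, rfl⟩
  have hβα : β - α ≠ 0 := sub_ne_zero.2 hαβ.symm
  have hldeg : l.natDegree = 1 := by
    rw [hl]
    exact natDegree_linear hβα
  have hdeg : ∀ P : F[X], (P.comp l).natDegree = P.natDegree := by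
    intro P
    rw [natDegree_comp, hldeg, mul_one]
  have hcomp : Pol (p.comp l) (q.comp l) b = (Pol p q b).comp l := by
    unfold Pol
    rw [mul_comp, Polynomial.prod_comp]
    simp only [mul_comp, sub_comp, C_comp]
  have hcop' : IsCoprime (p.comp l) (q.comp l) := by
    obtain ⟨a, b, hab⟩ := hcop
    refine ⟨a.comp l, b.comp l, ?_⟩
    rw [← mul_comp, ← mul_comp, ← add_comp, hab, one_comp]
  have hl0 : l.eval 0 = α := by
    rw [hl]
    simp
  have hl1 : l.eval 1 = β := by
    rw [hl]
    simp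
  have hlne : l.natDegree ≠ 0 := by omega
  have h1 : r.comp l ∣ Pol (p.comp l) (q.comp l) b := by
    obtain ⟨c, hc⟩ := hr1
    exact ⟨c.comp l, by rw [hcomp, ← mul_comp, ← hc]⟩
  have h2 : Pol (p.comp l) (q.comp l) b ∣ (r.comp l) ^ NN := by
    obtain ⟨c, hc⟩ := hNN
    exact ⟨c.comp l, by rw [hcomp, ← mul_comp, ← hc, pow_comp]⟩
  have h3 : Pol (p.comp l) (q.comp l) b ≠ 0 := by
    rw [hcomp]
    intro h
    have h5 := hdeg (Pol p q b)
    rw [h, natDegree_zero] at h5
    have h6 := eq_C_of_natDegree_eq_zero h5.symm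
    rw [h6, eval_C] at hα
    rw [hα, C_0] at h6
    exact hne h6
  obtain ⟨n, C, hn, hC, step⟩ := stepA hd hcop' ((hdeg p).le.trans hp) ((hdeg q).le.trans hq)
    (by rw [hdeg, hdeg]; exact hpq) b h1 h2 h3 (by rw [hdeg]; exact hrad) ![0, 1]
    (by
      intro i j hij
      fin_cases i <;> fin_cases j <;> simp_all)
    (by
      intro i
      rw [hcomp, eval_comp]
      fin_cases i
      · show (Pol p q b).eval (l.eval 0) = 0
        rw [hl0]
        exact hα
      · show (Pol p q b).eval (l.eval 1) = 0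
        rw [hl1]
        exact hβ)
  refine ⟨n, C, hn, hC, fun M _ _ _ s hs0 hs1 => ?_⟩
  obtain ⟨φ, hφ⟩ : ∃ φ : F →+* M, φ = algebraMap F M := ⟨_, rfl⟩
  have e1 : (fun i => algebraMap F M ((![0, 1] : Fin 2 → F) i)) = ![0, 1] := by
    funext i
    fin_cases i <;> simp
  obtain ⟨k1, k2⟩ := step M s (by
    intro i
    fin_cases i
    · show s ≠ algebraMap F M 0
      rw [map_zero]
      exact hs0
    · show s ≠ algebraMap F M 1
      rw [map_one]
      exact hs1)
  rw [e1] at k2
  rw [hcomp] at k1 k2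
  refine ⟨(l.map (algebraMap F M)).eval s, ?_⟩
  rw [← hφ] at k1 k2 ⊢
  have ev : ∀ P : F[X], (P.map φ).eval ((l.map φ).eval s) = ((P.comp l).map φ).eval s := by
    intro P
    rw [Polynomial.map_comp, eval_comp]
  rw [ev, ev, ev]
  exact ⟨k1, k2⟩

end affine

section main

variable (K F : Type) [Field K] [NumberField K] [Field F] [NumberField F] [Algebra K F]

/-- **The main lemma** -/
theorem stepC {p q : F[X]} {d : ℕ} (hd : 1 ≤ d) (hcop : IsCoprime p q) (hp : p.natDegree ≤ d)
    (hq : q.natDegree ≤ d) (hpq : p.natDegree = d ∨ q.natDegree = d) {k : ℕ} (hk : 2 ≤ k)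
    {b : Fin k → F} (hb : Function.Injective b)
    (hroots : ((Pol p q b).rootSet (AlgebraicClosure F)).ncard ≤ d * (k - 1) + 1) :
    ∃ (n R : ℕ) (C : ℝ), 2 + n ≤ d * (k - 1) + 1 ∧ 0 ≤ C ∧
      ∀ (L : Type) [Field L] [NumberField L] [Algebra K L] (s : L), s ≠ 0 → s ≠ 1 →
      ∃ (M : Type) (_ : Field M) (_ : NumberField M) (_ : Algebra K M) (_ : Algebra L M)
        (_ : Algebra F M) (_ : IsScalarTower K L M) (_ : IsScalarTower K F M),
        Module.finrank L M ≤ R ∧ ∃ t : M,
        (((Pol p q b).map (algebraMap F M)).eval t = 0 →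
          logHeight₁ s ≤ Module.finrank ℚ L * C) ∧
        (((Pol p q b).map (algebraMap F M)).eval t ≠ 0 →
          (q.map (algebraMap F M)).eval t ≠ 0 ∧
          ∀ y : M, y = (p.map (algebraMap F M)).eval t / (q.map (algebraMap F M)).eval t →
            (∀ j, y ≠ algebraMap F M (b j)) ∧
            d * (Module.finrank L M * logHeight₁ s) ≤ logHeight₁ y + Module.finrank ℚ M * C ∧
            ∀ S : Set (FinitePlace L),
              Real.log |(discr M : ℝ)| +
                Real.log (PP (UsA (Up S M) (fun j => algebraMap F M (b j)) y)) ≤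
              Module.finrank L M * (Real.log |(discr L : ℝ)| +
                Real.log (PP (UsA S ![0, 1] s)) + n * logHeight₁ s) +
                Module.finrank ℚ M * C) := by
  have hq0 : q ≠ 0 := by
    rintro rfl
    have e2 := natDegree_eq_zero_of_isUnit (isCoprime_zero_right.1 hcop)
    rw [natDegree_zero] at hpq
    omega
  have hpj : ∀ j, p - C (b j) * q ≠ 0 := by
    intro j h
    have h7 : p = C (b j) * q := sub_eq_zero.1 h
    have hu : IsUnit q := by
      rw [h7] at hcop
      exact isCoprime_self.1 (IsCoprime.of_mul_left_right hcop)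
    have e2 := natDegree_eq_zero_of_isUnit hu
    have e3 : p.natDegree = 0 := by
      rw [h7]
      have := natDegree_C_mul_le (b j) q
      omega
    omega
  have hne : Pol p q b ≠ 0 := mul_ne_zero hq0 (Finset.prod_ne_zero_iff.2 fun j _ => hpj j)
  obtain ⟨r, NN, hr1, hr2, hr3⟩ := exists_rad hne hroots
  -- the splitting field
  obtain ⟨G, i1, i2, i3, i4, i5, hsp⟩ : ∃ (G : Type) (_ : Field G) (_ : NumberField G)
      (_ : Algebra K G) (_ : Algebra F G) (_ : IsScalarTower K F G),
      ((Pol p q b).map (algebraMap F G)).Splits := by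
    let G := SplittingField (Pol p q b)
    have h1 : NumberField G := NumberField.of_module_finite F G
    exact ⟨G, inferInstance, h1, inferInstance, inferInstance, inferInstance,
      SplittingField.splits _⟩
  obtain ⟨ψ, hψ⟩ : ∃ ψ : F →+* G, ψ = algebraMap F G := ⟨_, rfl⟩
  have hmap : (Pol p q b).map ψ = Pol (p.map ψ) (q.map ψ) (fun j => ψ (b j)) := by
    unfold Pol
    rw [Polynomial.map_mul, Polynomial.map_prod]
    simp only [Polynomial.map_sub, Polynomial.map_mul, map_C]
  rw [← hψ, hmap] at hsp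
  have hne' : Pol (p.map ψ) (q.map ψ) (fun j => ψ (b j)) ≠ 0 := by
    rw [← hmap]
    exact (Polynomial.map_ne_zero_iff ψ.injective).2 hne
  have hcop' : IsCoprime (p.map ψ) (q.map ψ) := hcop.map (mapRingHom ψ)
  have hpq' : (p.map ψ).natDegree = d ∨ (q.map ψ).natDegree = d := by
    rw [natDegree_map, natDegree_map]
    exact hpq
  have hp' : (p.map ψ).natDegree ≤ d := by rw [natDegree_map]; exact hp
  have hq' : (q.map ψ).natDegree ≤ d := by rw [natDegree_map]; exact hq
  obtain ⟨α, β, hαβ, hα, hβ⟩ := two_roots' hd hcop' hp' hq' hpq' hk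
    (b := fun j => ψ (b j)) (ψ.injective.comp hb) hne' hsp
  obtain ⟨n, C2, hn, hC2, stp⟩ := stepB hd hcop' hp' hq' hpq' (b := fun j => ψ (b j))
    (r := r.map ψ) (NN := NN)
    (by
      rw [← hmap]
      obtain ⟨c, hc⟩ := hr1
      exact ⟨c.map ψ, by rw [← Polynomial.map_mul, ← hc]⟩)
    (by
      rw [← hmap]
      obtain ⟨c, hc⟩ := hr2
      exact ⟨c.map ψ, by rw [← Polynomial.map_mul, ← hc, Polynomial.map_pow]⟩)
    hne' (by rw [natDegree_map]; exact hr3) hαβ hα hβ
  obtain ⟨C1, hC1, cmp⟩ := compositum K G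
  refine ⟨n, Module.finrank K G, C1 + C2, hn, by positivity, fun L _ _ _ s hs0 hs1 => ?_⟩
  obtain ⟨M, j1, j2, j3, j4, j5, j6, j7, hfin, hdisc⟩ := cmp L
  let _ : Algebra F M := ((algebraMap G M).comp (algebraMap F G)).toAlgebra
  have eFM : algebraMap F M = (algebraMap G M).comp (algebraMap F G) := rfl
  have hKFM : IsScalarTower K F M := IsScalarTower.of_algebraMap_eq fun x => by
    rw [eFM, RingHom.comp_apply, ← IsScalarTower.algebraMap_apply K F G,
      ← IsScalarTower.algebraMap_apply K G M]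
  obtain ⟨s', hs'⟩ : ∃ s' : M, s' = algebraMap L M s := ⟨_, rfl⟩
  obtain ⟨t, t1, t2⟩ := stp M s'
    (by
      rw [hs']
      intro h
      exact hs0 ((FaithfulSMul.algebraMap_eq_zero_iff L M).1 h))
    (by
      rw [hs']
      intro h
      exact hs1 ((algebraMap L M).injective (by rw [h, map_one])))
  have emap : ∀ P : F[X], (P.map ψ).map (algebraMap G M) = P.map (algebraMap F M) := by
    intro P
    rw [Polynomial.map_map, hψ, eFM]
  have eb : ∀ j, algebraMap G M (ψ (b j)) = algebraMap F M (b j) := by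
    intro j
    rw [hψ, eFM, RingHom.comp_apply]
  have hext : logHeight₁ s' = Module.finrank L M * logHeight₁ s := by
    rw [hs']
    exact ext1 s
  have hdegM : (Module.finrank ℚ M : ℝ) = Module.finrank ℚ L * Module.finrank L M := by
    exact_mod_cast (Module.finrank_mul_finrank ℚ L M).symm
  have hLM : (0 : ℝ) < Module.finrank L M := by exact_mod_cast Module.finrank_pos
  have hQM : (0 : ℝ) ≤ Module.finrank ℚ M := by positivity
  have hQL : (0 : ℝ) ≤ Module.finrank ℚ L := by positivity
  rw [← hmap, emap, emap, emap] at t2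
  rw [← hmap, emap] at t1
  simp only [eb] at t2
  refine ⟨M, j1, j2, j3, j4, inferInstance, j6, hKFM, hfin, t, fun h => ?_, fun h => ?_⟩
  · have h1 := t1 h
    rw [hext, hdegM] at h1
    have h2 : Module.finrank L M * logHeight₁ s ≤
        Module.finrank L M * (Module.finrank ℚ L * C2) := by linarith
    have h3 := le_of_mul_le_mul_left h2 hLM
    have h4 : (Module.finrank ℚ L : ℝ) * C2 ≤ Module.finrank ℚ L * (C1 + C2) := by
      apply mul_le_mul_of_nonneg_left _ hQL
      linarith
    linarith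
  · obtain ⟨h0, t3⟩ := t2 h
    refine ⟨h0, fun y hy => ?_⟩
    obtain ⟨h1, h3, h4⟩ := t3 y hy
    have h5 : (Module.finrank ℚ M : ℝ) * C2 ≤ Module.finrank ℚ M * (C1 + C2) := by
      apply mul_le_mul_of_nonneg_left _ hQM
      linarith
    rw [hext] at h3
    refine ⟨h1, by linarith, fun S => ?_⟩
    have h6 := h4 (Up S M)
    have h7 := UsA_up (M := M) S (a := ![0, 1]) (t := s) (by
      intro i
      fin_cases i
      · exact hs0
      · exact hs1)
    have e1 : (fun i => algebraMap L M ((![0, 1] : Fin 2 → L) i)) = ![0, 1] := by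
      funext i
      fin_cases i <;> simp
    rw [e1, ← hs'] at h7
    rw [hext] at h6
    have e2 : Module.finrank L M * (Real.log |(discr L : ℝ)| +
        Real.log (PP (UsA S ![0, 1] s)) + n * logHeight₁ s) +
        Module.finrank ℚ M * (C1 + C2) = (Module.finrank L M * Real.log |(discr L : ℝ)| +
        Module.finrank ℚ M * C1) + Module.finrank L M * Real.log (PP (UsA S ![0, 1] s)) +
        n * (Module.finrank L M * logHeight₁ s) + Module.finrank ℚ M * C2 := by ring
    rw [e2]
    linarith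

end main

end Q265.BD
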