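import Pool.Agent.Q265.BD.G

/-! # The inequality at a point of a field -/

set_option autoImplicit false

open NumberField Height Function Polynomial IntermediateField

namespace Q265.BD

open Q241.AK Q265.NF Q265.BM

section ineq

variable (K : Type) [Field K] [NumberField K]

/-- the inequality for the point `y` of `L` -/
def IneqA (S : Finset (FinitePlace K)) (ε C : ℝ) {L : Type} [Field L] [NumberField L] [Algebra K L]
    {m : ℕ} (a : Fin m → L) (y : L) : Prop :=
  (((m + 1 : ℕ) : ℝ) - 2) * (logHeight₁ y / Module.finrank K L) ≤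
    Real.log (PP (UsA (Ab S L) a y)) / Module.finrank K L +
      ε * (logHeight₁ y / Module.finrank K L) +
      (Real.log |(discr L : ℝ)| / Module.finrank K L - Real.log |(discr K : ℝ)|) + C

variable {K}

lemma ineqA_iff (S : Finset (FinitePlace K)) (ε C : ℝ) {L : Type} [Field L] [NumberField L]
    [Algebra K L] {m : ℕ} (a : Fin m → L) (y : L) :
    IneqA K S ε C a y ↔ ((m : ℝ) - 1 - ε) * logHeight₁ y ≤
      Real.log (PP (UsA (Ab S L) a y)) + Real.log |(discr L : ℝ)| +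
        Module.finrank K L * (C - Real.log |(discr K : ℝ)|) := by
  have hn : (0 : ℝ) < Module.finrank K L := by exact_mod_cast Module.finrank_pos
  obtain ⟨n, hn'⟩ : ∃ n : ℝ, n = Module.finrank K L := ⟨_, rfl⟩
  unfold IneqA
  rw [← hn'] at hn ⊢
  obtain ⟨H, hH⟩ : ∃ H : ℝ, H = logHeight₁ y := ⟨_, rfl⟩
  obtain ⟨A, hA⟩ : ∃ A : ℝ, A = Real.log (PP (UsA (Ab S L) a y)) := ⟨_, rfl⟩
  obtain ⟨D, hD⟩ : ∃ D : ℝ, D = Real.log |(discr L : ℝ)| := ⟨_, rfl⟩
  obtain ⟨δ, hδ⟩ : ∃ δ : ℝ, δ = Real.log |(discr K : ℝ)| := ⟨_, rfl⟩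
  rw [← hH, ← hA, ← hD, ← hδ]
  push_cast
  have e1 : ((m : ℝ) + 1 - 2) * (H / n) ≤ A / n + ε * (H / n) + (D / n - δ) + C ↔
      n * (((m : ℝ) + 1 - 2) * (H / n)) ≤ n * (A / n + ε * (H / n) + (D / n - δ) + C) :=
    (mul_le_mul_iff_right₀ hn).symm
  rw [e1]
  have e2 : n * (((m : ℝ) + 1 - 2) * (H / n)) = ((m : ℝ) - 1) * H := by
    field_simp
    ring
  have e3 : n * (A / n + ε * (H / n) + (D / n - δ) + C) = A + ε * H + D + n * (C - δ) := by
    field_simp
    ring
  rw [e2, e3]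
  constructor
  · intro h
    linarith
  · intro h
    linarith

/-- passing to a larger field -/
theorem ineqA_mono {k L : Type} [Field k] [NumberField k] [Field L] [NumberField L] [Algebra K k]
    [Algebra K L] (f : k →ₐ[K] L) (S : Finset (FinitePlace K)) {ε C : ℝ} {m : ℕ} (b : Fin m → K)
    {y : k} (hy : ∀ j, f y ≠ algebraMap K L (b j))
    (h : IneqA K S ε C (fun j => algebraMap K k (b j)) y) :
    IneqA K S ε C (fun j => algebraMap K L (b j)) (f y) := by
  rw [ineqA_iff] at h ⊢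
  obtain ⟨g1, g2⟩ := glue f S b hy
  obtain ⟨n', hn'⟩ : ∃ n' : ℝ, n' = Module.finrank K k := ⟨_, rfl⟩
  obtain ⟨n0, hn0⟩ : ∃ n0 : ℝ, n0 = Module.finrank K L := ⟨_, rfl⟩
  have hn'p : 0 < n' := by rw [hn']; exact_mod_cast Module.finrank_pos
  have hn0p : 0 < n0 := by rw [hn0]; exact_mod_cast Module.finrank_pos
  rw [← hn', ← hn0] at g1 g2
  rw [← hn'] at h
  rw [← hn0]
  have m1 := mul_le_mul_of_nonneg_left h hn0p.le
  have m2 : n' * (((m : ℝ) - 1 - ε) * logHeight₁ (f y)) ≤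
      n' * (Real.log (PP (UsA (Ab S L) (fun j => algebraMap K L (b j)) (f y))) +
        Real.log |(discr L : ℝ)| + n0 * (C - Real.log |(discr K : ℝ)|)) := by
    have e1 : n' * (((m : ℝ) - 1 - ε) * logHeight₁ (f y)) =
        n0 * (((m : ℝ) - 1 - ε) * logHeight₁ y) := by
      have : n' * (((m : ℝ) - 1 - ε) * logHeight₁ (f y)) =
          ((m : ℝ) - 1 - ε) * (n' * logHeight₁ (f y)) := by ring
      rw [this, g2]
      ring
    rw [e1]
    linarith
  exact le_of_mul_le_mul_left m2 hn'p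

lemma Up_Ab {L M : Type} [Field L] [NumberField L] [Field M] [NumberField M] [Algebra K L]
    [Algebra K M] [Algebra L M] [IsScalarTower K L M] (S : Finset (FinitePlace K)) :
    Up (Ab S L) M = Ab S M := by
  ext w
  constructor
  · rintro ⟨v, ⟨s, hs, hv⟩, hw⟩
    have h1 := hv
    have h2 := hw
    exact ⟨s, hs, Ideal.LiesOver.trans w.maximalIdeal.asIdeal v.maximalIdeal.asIdeal
      s.maximalIdeal.asIdeal⟩
  · rintro ⟨s, hs, hw⟩
    obtain ⟨v, hv⟩ := exists_below (L := L) w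
    have h1 := hv
    have h2 := hw
    exact ⟨v, ⟨s, hs, Ideal.LiesOver.tower_bot w.maximalIdeal.asIdeal v.maximalIdeal.asIdeal
      s.maximalIdeal.asIdeal⟩, hv⟩

/-- the point `y` of `L` over the field it generates -/
lemma exists_gen {L : Type} [Field L] [NumberField L] [Algebra K L] (y : L) :
    ∃ (t : AlgebraicClosure K) (f : K⟮t⟯ →ₐ[K] L), f (AdjoinSimple.gen K t) = y := by
  have ι : L →ₐ[K] AlgebraicClosure K := IsAlgClosed.lift
  refine ⟨ι y, ?_⟩
  have hint : IsIntegral K (ι y) := Algebra.IsIntegral.isIntegral _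
  have hmin : minpoly K (ι y) = minpoly K y := minpoly.algHom_eq ι ι.injective y
  have hy : y ∈ (minpoly K (ι y)).aroots L := by
    rw [mem_aroots]
    exact ⟨minpoly.ne_zero hint, by rw [hmin]; exact minpoly.aeval K y⟩
  exact ⟨(algHomAdjoinIntegralEquiv K hint).symm ⟨y, hy⟩,
    algHomAdjoinIntegralEquiv_symm_apply_gen K hint ⟨y, hy⟩⟩

end ineq

end Q265.BD
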